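import Pool.Agent.Lib.MP_216314_pr.SM.Def

/-!
# Arguments, branches and the derivative
-/

set_option autoImplicit false

noncomputable section

namespace SM

open Complex

/-- the derivative -/
def gp (s : ℝ) (w : ℂ) : ℂ := (w - (Real.sqrt s : ℂ)) ^ 2 / ((w - (w1 s : ℂ)) * (w ^ 2 + 1))

/-- the branch for `-1 < im < 1` -/
def gu (s : ℝ) (w : ℂ) : ℂ :=
  (s : ℂ) * (log (-I * (w - (w1 s : ℂ))) + (Real.pi / 2 : ℂ) * I) + ((1 - s) / 2 : ℂ) * log (w ^ 2 + 1)

/-- the branch for the left quadrant -/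
def gv (s : ℝ) (w : ℂ) : ℂ :=
  (s : ℂ) * log (w - (w1 s : ℂ)) + ((1 - s) / 2 : ℂ) * (log (-(w - I)) + (Real.pi : ℂ) * I + log (w + I))

theorem w1_mul {s : ℝ} (h1 : s < 1) : (1 - s) * w1 s = 2 * Real.sqrt s := by
  rw [w1]
  have : (1 : ℝ) - s ≠ 0 := by linarith
  field_simp

theorem w1_sub {s : ℝ} (h0 : 0 < s) (h1 : s < 1) : w1 s - Real.sqrt s = Real.sqrt s * (1 + s) / (1 - s) := by
  rw [w1]
  have : (1 : ℝ) - s ≠ 0 := by linarith
  field_simp
  ring

theorem w1_gt {s : ℝ} (h0 : 0 < s) (h1 : s < 1) : Real.sqrt s < w1 s := by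
  have h := w1_sub h0 h1
  have h2 : 0 < Real.sqrt s * (1 + s) / (1 - s) := by
    have : 0 < Real.sqrt s := Real.sqrt_pos.2 h0
    have h3 : 0 < 1 - s := by linarith
    positivity
  linarith

theorem half_cast (s : ℝ) : ((1 - s) / 2 : ℂ) = (((1 - s) / 2 : ℝ) : ℂ) := by push_cast; ring

theorem gt_im (s : ℝ) (w : ℂ) : (gt s w).im = s * arg (w - (w1 s : ℂ)) + (1 - s) / 2 * (arg (w - I) + arg (w + I)) := by
  rw [gt, half_cast, add_im, im_ofReal_mul, im_ofReal_mul, add_im, log_im, log_im, log_im]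

theorem gt_re (s : ℝ) (w : ℂ) : (gt s w).re = s * Real.log ‖w - (w1 s : ℂ)‖ +
    (1 - s) / 2 * (Real.log ‖w - I‖ + Real.log ‖w + I‖) := by
  rw [gt, half_cast, add_re, re_ofReal_mul, re_ofReal_mul, add_re, log_re, log_re, log_re]

theorem arg_pos_lt {z : ℂ} (h : 0 < z.im) : 0 < arg z ∧ arg z < Real.pi := by
  constructor
  · rcases lt_or_eq_of_le (arg_nonneg_iff.2 h.le) with h1 | h1
    · exact h1
    · exfalso
      have := (arg_eq_zero_iff.1 h1.symm).2
      linarith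
  · rcases lt_or_eq_of_le (arg_le_pi z) with h1 | h1
    · exact h1
    · exfalso
      have := (arg_eq_pi_iff.1 h1).2
      linarith

theorem log_rot {z : ℂ} (h : 0 < z.im) : log z = log (-I * z) + (Real.pi / 2 : ℂ) * I := by
  have hz : z ≠ 0 := by
    rintro rfl
    simp at h
  have h2 := arg_pos_lt h
  have h3 : log (-I * z) = log (-I) + log z := by
    refine (log_mul_eq_add_log_iff (by simp) hz).2 ?_
    rw [arg_neg_I]
    constructor <;> linarith
  rw [h3, log_neg_I]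
  ring

/-- the product of the two factors for `0 < im < 1` -/
theorem log_sum {w : ℂ} (h0 : 0 < w.im) (h1 : w.im < 1) : log (w - I) + log (w + I) = log (w ^ 2 + 1) := by
  have e : w ^ 2 + 1 = (w - I) * (w + I) := by
    ring_nf
    rw [I_sq]
    ring
  have i1 : (w - I).im < 0 := by simp; linarith
  have i2 : 0 < (w + I).im := by simp; linarith
  have n1 : w - I ≠ 0 := by
    intro h; rw [h] at i1; simp at i1
  have n2 : w + I ≠ 0 := by
    intro h; rw [h] at i2; simp at i2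
  rw [e]
  refine ((log_mul_eq_add_log_iff n1 n2).2 ?_).symm
  have a1 := arg_neg_iff.2 i1
  have a2 := arg_pos_lt i2
  have a3 := neg_pi_lt_arg (w - I)
  constructor <;> linarith

theorem gt_eq_gu (s : ℝ) {w : ℂ} (h0 : 0 < w.im) (h1 : w.im < 1) : gt s w = gu s w := by
  rw [gt, gu, log_sum h0 h1, log_rot (z := w - (w1 s : ℂ)) (by simpa using h0)]

theorem log_neg_of {z : ℂ} (h : z.re < 0) : log z = log (-z) + (if 0 ≤ z.im then (Real.pi : ℂ) else -(Real.pi : ℂ)) * I := by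
  have hz : z ≠ 0 := by
    rintro rfl
    simp at h
  have h2 : arg z = arg (-z) + (if 0 ≤ z.im then Real.pi else -Real.pi) := by
    split_ifs with h3
    · rcases eq_or_lt_of_le h3 with h4 | h4
      · have e : arg z = Real.pi := arg_eq_pi_iff.2 ⟨h, h4.symm⟩
        have e2 : arg (-z) = 0 := arg_eq_zero_iff.2 ⟨by simpa using h.le, by simp [← h4]⟩
        rw [e, e2]; ring
      · rw [arg_neg_eq_arg_sub_pi_of_im_pos h4]; ring
    · push Not at h3
      rw [arg_neg_eq_arg_add_pi_of_im_neg h3]; ring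
  apply Complex.ext
  · rw [log_re, add_re, log_re, norm_neg]
    split_ifs <;> simp
  · rw [log_im, add_im, log_im, h2]
    split_ifs <;> simp

theorem gv_eq (s : ℝ) {w : ℂ} (h : w.re < 0) (h1 : 1 ≤ w.im) : gv s w = gt s w := by
  rw [gv, gt, log_neg_of (z := w - I) (by simpa using h), if_pos (by simp; exact h1)]

theorem gv_eq' (s : ℝ) {w : ℂ} (h : w.re < 0) (h1 : w.im < 1) : gv s w = gt s w + ((1 - s) * Real.pi : ℂ) * I := by
  rw [gv, gt, log_neg_of (z := w - I) (by simpa using h), if_neg (by simp; exact h1)]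
  ring


theorem lin (w c : ℂ) : HasStrictDerivAt (fun w : ℂ => w - c) 1 w := (hasStrictDerivAt_id w).sub_const c

theorem lin2 (w c : ℂ) : HasStrictDerivAt (fun w : ℂ => w + c) 1 w := (hasStrictDerivAt_id w).add_const c

theorem gp_frac {s : ℝ} (h0 : 0 ≤ s) (h1 : s < 1) {w : ℂ} (n1 : w ≠ (w1 s : ℂ)) (n2 : w ≠ I) (n3 : w ≠ -I) :
    (s : ℂ) / (w - (w1 s : ℂ)) + ((1 - s) / 2 : ℂ) * (1 / (w - I) + 1 / (w + I)) = gp s w := by
  have m1 : w - (w1 s : ℂ) ≠ 0 := sub_ne_zero.2 n1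
  have m2 : w - I ≠ 0 := sub_ne_zero.2 n2
  have m3 : w + I ≠ 0 := by
    intro h
    exact n3 (eq_neg_of_add_eq_zero_left h)
  have e : w ^ 2 + 1 = (w - I) * (w + I) := by
    ring_nf
    rw [I_sq]
    ring
  have q : ((Real.sqrt s : ℝ) : ℂ) ^ 2 = (s : ℂ) := by
    rw [← ofReal_pow, Real.sq_sqrt h0]
  have r : (1 - (s : ℂ)) * (w1 s : ℂ) = 2 * ((Real.sqrt s : ℝ) : ℂ) := by
    have := congrArg (fun x : ℝ => (x : ℂ)) (w1_mul h1)
    push_cast at this
    exact this
  rw [gp, e]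
  field_simp
  linear_combination (-2 : ℂ) * q - 2 * w * r - 2 * (s : ℂ) * I_sq

theorem hasStrictDerivAt_gt {s : ℝ} (h0 : 0 ≤ s) (h1 : s < 1) {w : ℂ} (hw : 0 < w.im) (h2 : w.im ≠ 1 ∨ 0 < w.re) :
    HasStrictDerivAt (gt s) (gp s w) w := by
  have n1 : w ≠ (w1 s : ℂ) := by
    intro h; rw [h] at hw; simp at hw
  have n2 : w ≠ I := by
    intro h; rw [h] at h2; simp at h2
  have n3 : w ≠ -I := by
    intro h; rw [h] at hw; simp at hw; linarith
  rw [← gp_frac h0 h1 n1 n2 n3]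
  have k1 : HasStrictDerivAt (fun w : ℂ => log (w - (w1 s : ℂ))) (1 / (w - (w1 s : ℂ))) w :=
    HasStrictDerivAt.clog (lin w _) (Or.inr (by simpa using hw.ne'))
  have k2 : HasStrictDerivAt (fun w : ℂ => log (w - I)) (1 / (w - I)) w := by
    refine HasStrictDerivAt.clog (lin w _) ?_
    rcases h2 with h | h
    · right
      simp [sub_eq_zero]
      exact h
    · left
      simpa using h
  have k3 : HasStrictDerivAt (fun w : ℂ => log (w + I)) (1 / (w + I)) w := by
    refine HasStrictDerivAt.clog (lin2 w _) (Or.inr ?_)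
    simp
    linarith
  have k := (k1.const_mul (s : ℂ)).add ((k2.add k3).const_mul ((1 - s) / 2 : ℂ))
  rw [mul_one_div] at k
  exact k

theorem hasStrictDerivAt_gu {s : ℝ} (h0 : 0 ≤ s) (h1 : s < 1) {w : ℂ} (hw : -1 < w.im) (hw2 : w.im < 1)
    (h2 : w.re ≠ w1 s ∨ 0 < w.im) : HasStrictDerivAt (gu s) (gp s w) w := by
  have n1 : w ≠ (w1 s : ℂ) := by
    intro h; rw [h] at h2; simp at h2
  have n2 : w ≠ I := by
    intro h; rw [h] at hw2; simp at hw2
  have n3 : w ≠ -I := by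
    intro h; rw [h] at hw; simp at hw
  rw [← gp_frac h0 h1 n1 n2 n3]
  have m1 : w - (w1 s : ℂ) ≠ 0 := sub_ne_zero.2 n1
  have m2 : w - I ≠ 0 := sub_ne_zero.2 n2
  have m3 : w + I ≠ 0 := by
    intro h
    exact n3 (eq_neg_of_add_eq_zero_left h)
  have k1 : HasStrictDerivAt (fun w : ℂ => log (-I * (w - (w1 s : ℂ)))) (1 / (w - (w1 s : ℂ))) w := by
    have := (HasStrictDerivAt.clog (HasStrictDerivAt.const_mul (-I) (lin w (w1 s : ℂ))) (by
      rcases h2 with h | h
      · right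
        simpa [sub_eq_zero] using Ne.symm h
      · left
        simpa using h))
    have e : -I * 1 / (-I * (w - (w1 s : ℂ))) = 1 / (w - (w1 s : ℂ)) := by
      have : I ≠ 0 := I_ne_zero
      field_simp
    rw [e] at this
    exact this
  have k2 : HasStrictDerivAt (fun w : ℂ => log (w ^ 2 + 1)) (1 / (w - I) + 1 / (w + I)) w := by
    have hs : w ^ 2 + 1 ∈ slitPlane := by
      by_cases h : w.im = 0
      · left
        have : (w ^ 2 + 1).re = w.re ^ 2 - w.im ^ 2 + 1 := by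
          rw [pow_two]; simp; ring
        rw [this, h]
        nlinarith [sq_nonneg w.re]
      · left
        have : (w ^ 2 + 1).re = w.re ^ 2 - w.im ^ 2 + 1 := by
          rw [pow_two]; simp; ring
        rw [this]
        nlinarith [sq_nonneg w.re]
    have := (((hasStrictDerivAt_id w).pow 2).add_const (1 : ℂ)).clog hs
    have e : 1 / (w - I) + 1 / (w + I) = 2 * w / (w ^ 2 + 1) := by
      have e : w ^ 2 + 1 = (w - I) * (w + I) := by
        ring_nf
        rw [I_sq]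
        ring
      rw [e]
      field_simp
      ring
    rw [e]
    simpa using this
  have k := ((k1.add_const ((Real.pi / 2 : ℂ) * I)).const_mul (s : ℂ)).add (k2.const_mul ((1 - s) / 2 : ℂ))
  rw [mul_one_div] at k
  exact k

theorem hasStrictDerivAt_gv {s : ℝ} (h0 : 0 ≤ s) (h1 : s < 1) {w : ℂ} (hw : 0 < w.im) (h2 : w.re < 0) :
    HasStrictDerivAt (gv s) (gp s w) w := by
  have n1 : w ≠ (w1 s : ℂ) := by
    intro h; rw [h] at hw; simp at hw
  have n2 : w ≠ I := by
    intro h; rw [h] at h2; simp at h2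
  have n3 : w ≠ -I := by
    intro h; rw [h] at hw; simp at hw; linarith
  rw [← gp_frac h0 h1 n1 n2 n3]
  have m2 : w - I ≠ 0 := sub_ne_zero.2 n2
  have k1 : HasStrictDerivAt (fun w : ℂ => log (w - (w1 s : ℂ))) (1 / (w - (w1 s : ℂ))) w :=
    HasStrictDerivAt.clog (lin w _) (Or.inr (by simpa using hw.ne'))
  have k2 : HasStrictDerivAt (fun w : ℂ => log (-(w - I))) (1 / (w - I)) w := by
    have := HasStrictDerivAt.clog (HasStrictDerivAt.neg (lin w I)) (Or.inl (by simpa using h2))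
    have e : -1 / (-(w - I)) = 1 / (w - I) := by
      field_simp
    rw [← e]
    exact this
  have k3 : HasStrictDerivAt (fun w : ℂ => log (w + I)) (1 / (w + I)) w := by
    refine HasStrictDerivAt.clog (lin2 w _) (Or.inr ?_)
    simp
    linarith
  have k := (k1.const_mul (s : ℂ)).add (((k2.add_const ((Real.pi : ℂ) * I)).add k3).const_mul ((1 - s) / 2 : ℂ))
  rw [mul_one_div] at k
  exact k

theorem gp_ne {s : ℝ} {w : ℂ} (n0 : w ≠ (Real.sqrt s : ℂ)) (n1 : w ≠ (w1 s : ℂ)) (n2 : w ≠ I) (n3 : w ≠ -I) : gp s w ≠ 0 := by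
  have m0 : w - (Real.sqrt s : ℂ) ≠ 0 := sub_ne_zero.2 n0
  have m1 : w - (w1 s : ℂ) ≠ 0 := sub_ne_zero.2 n1
  have m2 : w - I ≠ 0 := sub_ne_zero.2 n2
  have m3 : w + I ≠ 0 := by
    intro h
    exact n3 (eq_neg_of_add_eq_zero_left h)
  have e : w ^ 2 + 1 = (w - I) * (w + I) := by
    ring_nf
    rw [I_sq]
    ring
  rw [gp, e]
  exact div_ne_zero (pow_ne_zero 2 m0) (mul_ne_zero m1 (mul_ne_zero m2 m3))

theorem gp_ne_of_im {s : ℝ} {w : ℂ} (hw : 0 < w.im) (n2 : w ≠ I) : gp s w ≠ 0 := by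
  refine gp_ne ?_ ?_ n2 ?_
  · intro h; rw [h] at hw; simp at hw
  · intro h; rw [h] at hw; simp at hw
  · intro h; rw [h] at hw; simp at hw; linarith

end SM
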