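import Pool.Agent.Lib.MP_216314_pr.SM.A

/-!
# Signs
-/

set_option autoImplicit false

noncomputable section

namespace SM

open Complex

theorem sum_arg {w : ℂ} (h0 : 0 < w.im) (h1 : w.im < 1) : arg (w - I) + arg (w + I) = arg (w ^ 2 + 1) := by
  have := congrArg Complex.im (log_sum h0 h1)
  rwa [add_im, log_im, log_im, log_im] at this

theorem sq_re (w : ℂ) : (w ^ 2 + 1).re = 1 + w.re ^ 2 - w.im ^ 2 := by
  rw [pow_two]; simp; ring

theorem sq_im (w : ℂ) : (w ^ 2 + 1).im = 2 * w.re * w.im := by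
  rw [pow_two]; simp; ring

theorem sq_re_pos {w : ℂ} (h0 : -1 < w.im) (h1 : w.im < 1) : 0 < (w ^ 2 + 1).re := by
  rw [sq_re]
  nlinarith [sq_nonneg w.re]

/-- the left half of the lower strip is in `UU` -/
theorem gt_im_left {s : ℝ} (h0 : 0 < s) (h1 : s < 1) {w : ℂ} (hw0 : 0 < w.im) (hw1 : w.im < 1) (hr : w.re ≤ 0) :
    (gt s w).im < s * Real.pi := by
  rw [gt_im, sum_arg hw0 hw1]
  have a1 := arg_pos_lt (z := w - (w1 s : ℂ)) (by simpa using hw0)
  have a2 : arg (w ^ 2 + 1) ≤ 0 := by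
    rcases eq_or_lt_of_le hr with h | h
    · refine (arg_eq_zero_iff.2 ⟨(sq_re_pos (by linarith) hw1).le, ?_⟩).le
      rw [sq_im, h]; ring
    · refine (arg_neg_iff.2 ?_).le
      rw [sq_im]
      nlinarith
  nlinarith

theorem gt_im_gt {s : ℝ} (h0 : 0 < s) (h1 : s < 1) {w : ℂ} (hw0 : 0 < w.im) (hw1 : w.im < 1) :
    -((1 - s) * Real.pi) / 2 < (gt s w).im := by
  rw [gt_im, sum_arg hw0 hw1]
  have a1 := arg_pos_lt (z := w - (w1 s : ℂ)) (by simpa using hw0)
  have a2 := neg_pi_lt_arg (w ^ 2 + 1)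
  nlinarith

theorem gt_im_lt {s : ℝ} (h0 : 0 < s) (h1 : s < 1) {w : ℂ} (hw0 : 0 < w.im) (hw1 : w.im < 1) :
    (gt s w).im < (1 + s) / 2 * Real.pi := by
  rw [gt_im, sum_arg hw0 hw1]
  have a1 := arg_pos_lt (z := w - (w1 s : ℂ)) (by simpa using hw0)
  have a2 := arg_le_pi (w ^ 2 + 1)
  nlinarith

theorem gt_im_right {s : ℝ} (h0 : 0 < s) (h1 : s < 1) {w : ℂ} (hw0 : 0 < w.im) (hw1 : w.im < 1) (hr : 0 < w.re) :
    0 < (gt s w).im := by
  rw [gt_im, sum_arg hw0 hw1]
  have a1 := arg_pos_lt (z := w - (w1 s : ℂ)) (by simpa using hw0)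
  have a2 := arg_pos_lt (z := w ^ 2 + 1) (by rw [sq_im]; positivity)
  nlinarith

/-- the upper part -/
theorem gt_im_up {s : ℝ} (h0 : 0 < s) (h1 : s < 1) {w : ℂ} (hw1 : 1 ≤ w.im) :
    0 < (gt s w).im ∧ (gt s w).im < Real.pi := by
  rw [gt_im]
  have a1 := arg_pos_lt (z := w - (w1 s : ℂ)) (by simp; linarith)
  have a2 : 0 ≤ arg (w - I) := arg_nonneg_iff.2 (by simpa using hw1)
  have a3 := arg_le_pi (w - I)
  have a4 := arg_pos_lt (z := w + I) (by simp; linarith)
  constructor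
  · nlinarith
  · nlinarith

theorem re_div_pos {u v : ℂ} (h : 0 < u.re * v.re + u.im * v.im) : 0 < (u / v).re := by
  have hv : v ≠ 0 := by
    rintro rfl
    simp at h
  have hn := normSq_pos.2 hv
  rw [div_re, ← add_div]
  exact div_pos h hn

theorem im_div_pos {u v : ℂ} (h : 0 < u.im * v.re - u.re * v.im) : 0 < (u / v).im := by
  have hv : v ≠ 0 := by
    rintro rfl
    simp at h
  have hn := normSq_pos.2 hv
  rw [div_im, ← sub_div]
  exact div_pos h hn

theorem re_div_neg {u v : ℂ} (h : u.re * v.re + u.im * v.im < 0) : (u / v).re < 0 := by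
  have := re_div_pos (u := -u) (v := v) (by simp; linarith)
  rw [neg_div, neg_re] at this
  linarith

theorem im_div_neg {u v : ℂ} (h : u.im * v.re - u.re * v.im < 0) : (u / v).im < 0 := by
  have := im_div_pos (u := -u) (v := v) (by simp; linarith)
  rw [neg_div, neg_im] at this
  linarith

/-- `Im g' < 0` in the upper part -/
theorem gp_im_neg {s : ℝ} (h0 : 0 < s) (h1 : s < 1) {w : ℂ} (hw : 1 ≤ w.im) (hw2 : w ≠ I) : (gp s w).im < 0 := by
  have n1 : w ≠ (w1 s : ℂ) := by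
    intro h; rw [h] at hw; simp at hw; linarith
  have n3 : w ≠ -I := by
    intro h; rw [h] at hw; simp at hw; linarith
  rw [← gp_frac h0.le h1 n1 hw2 n3, half_cast, add_im, im_ofReal_mul, add_im]
  have k1 : ((s : ℂ) / (w - (w1 s : ℂ))).im < 0 := im_div_neg (by simp; nlinarith)
  have k2 : (1 / (w - I)).im ≤ 0 := by
    rw [div_im]
    have := normSq_nonneg (w - I)
    have h3 : 0 ≤ (w - I).im / normSq (w - I) := div_nonneg (by simpa using hw) this
    simp at h3 ⊢
    linarith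
  have k3 : (1 / (w + I)).im < 0 := im_div_neg (by simp; linarith)
  nlinarith

theorem im_deriv {f : ℝ → ℂ} {f' : ℂ} {x : ℝ} (h : HasDerivAt f f' x) : HasDerivAt (fun x => (f x).im) f'.im x :=
  imCLM.hasFDerivAt.comp_hasDerivAt x h

theorem re_deriv {f : ℝ → ℂ} {f' : ℂ} {x : ℝ} (h : HasDerivAt f f' x) : HasDerivAt (fun x => (f x).re) f'.re x :=
  reCLM.hasFDerivAt.comp_hasDerivAt x h

theorem seg_deriv {f : ℂ → ℂ} {f' a z : ℂ} {t : ℝ} (h : HasDerivAt f f' (a + t * z)) :
    HasDerivAt (fun t : ℝ => f (a + t * z)) (f' * z) t := by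
  have h1 : HasDerivAt (fun t : ℂ => a + t * z) z t := by
    simpa using ((hasDerivAt_id (t : ℂ)).mul_const z).const_add a
  exact (HasDerivAt.comp (t : ℂ) h h1).comp_ofReal

theorem gu_tip {s : ℝ} (h0 : 0 < s) (h1 : s < 1) : gu s (Real.sqrt s : ℂ) = (cst s : ℂ) + (s * Real.pi : ℂ) * I := by
  have hk := w1_gt h0 h1
  have e1 : -I * ((Real.sqrt s : ℂ) - (w1 s : ℂ)) = ((w1 s - Real.sqrt s : ℝ) : ℂ) * I := by
    push_cast
    ring
  have e2 : (Real.sqrt s : ℂ) ^ 2 + 1 = ((1 + s : ℝ) : ℂ) := by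
    rw [← ofReal_pow, Real.sq_sqrt h0.le]
    push_cast
    ring
  rw [gu, e1, e2, log_ofReal_mul (by linarith) I_ne_zero, log_I, ← ofReal_log (by linarith), cst]
  push_cast
  ring

theorem gp_vert {s : ℝ} (h0 : 0 < s) (h1 : s < 1) (t : ℝ) (ht : 0 < t) (ht1 : t < 1) :
    0 < ((gp s ((Real.sqrt s : ℂ) + t * I)) * I).im := by
  have hs := Real.sqrt_pos.2 h0
  have hss := Real.sq_sqrt h0.le
  have hk := w1_gt h0 h1
  have : ((gp s ((Real.sqrt s : ℂ) + t * I)) * I).im = (gp s ((Real.sqrt s : ℂ) + t * I)).re := by simp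
  rw [this, gp]
  refine re_div_pos ?_
  have e1 : ((Real.sqrt s : ℂ) + t * I - (Real.sqrt s : ℂ)) ^ 2 = ((-(t ^ 2) : ℝ) : ℂ) := by
    push_cast
    ring_nf
    rw [I_sq]
    ring
  rw [e1, ofReal_re, ofReal_im]
  have e2 : (((Real.sqrt s : ℂ) + t * I - (w1 s : ℂ)) * (((Real.sqrt s : ℂ) + t * I) ^ 2 + 1)).re =
      (Real.sqrt s - w1 s) * (1 + s - t ^ 2) - t * (2 * Real.sqrt s * t) := by
    rw [mul_re, sq_re, sq_im]
    simp
    exact Or.inl hss
  rw [e2]
  have h3 : 0 < 1 + s - t ^ 2 := by nlinarith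
  have h4 : 0 < t ^ 2 := by positivity
  have h5 : (Real.sqrt s - w1 s) * (1 + s - t ^ 2) < 0 := mul_neg_of_neg_of_pos (by linarith) h3
  have h6 : 0 < t * (2 * Real.sqrt s * t) := by positivity
  nlinarith

/-- the vertical line above the tip -/
theorem gt_im_vert {s : ℝ} (h0 : 0 < s) (h1 : s < 1) {y : ℝ} (hy : 0 < y) (hy1 : y < 1) :
    s * Real.pi < (gt s ((Real.sqrt s : ℂ) + y * I)).im := by
  have hs := Real.sqrt_pos.2 h0
  have hss := Real.sq_sqrt h0.le
  have hk := w1_gt h0 h1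
  have hd : ∀ t : ℝ, 0 ≤ t → t < 1 → HasDerivAt (fun t : ℝ => (gu s ((Real.sqrt s : ℂ) + t * I)).im)
      ((gp s ((Real.sqrt s : ℂ) + t * I)) * I).im t := by
    intro t ht ht1
    refine im_deriv (seg_deriv (hasStrictDerivAt_gu h0.le h1 ?_ ?_ ?_).hasDerivAt)
    · simp; linarith
    · simpa using ht1
    · left
      simpa using hk.ne
  have hp := gp_vert h0 h1
  have hm : StrictMonoOn (fun t : ℝ => (gu s ((Real.sqrt s : ℂ) + t * I)).im) (Set.Icc 0 y) := by
    refine strictMonoOn_of_deriv_pos (convex_Icc 0 y) ?_ ?_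
    · intro t ht
      exact (hd t ht.1 (lt_of_le_of_lt ht.2 hy1)).continuousAt.continuousWithinAt
    · intro t ht
      rw [interior_Icc] at ht
      rw [(hd t ht.1.le (lt_trans ht.2 hy1)).deriv]
      exact hp t ht.1 (lt_trans ht.2 hy1)
  have := hm (Set.left_mem_Icc.2 hy.le) (Set.right_mem_Icc.2 hy.le) hy
  simp only [ofReal_zero, zero_mul, add_zero] at this
  rw [gu_tip h0 h1] at this
  rw [gt_eq_gu s (by simpa using hy) (by simpa using hy1)]
  simpa using this

/-- the height one above the tip -/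
theorem gt_im_vert_one {s : ℝ} (h0 : 0 < s) (h1 : s < 1) : s * Real.pi < (gt s ((Real.sqrt s : ℂ) + I)).im := by
  have hs := Real.sqrt_pos.2 h0
  have hd : ∀ t : ℝ, 0 < t → HasDerivAt (fun t : ℝ => (gt s ((Real.sqrt s : ℂ) + t * I)).im)
      ((gp s ((Real.sqrt s : ℂ) + t * I)) * I).im t := by
    intro t ht
    refine im_deriv (seg_deriv (hasStrictDerivAt_gt h0.le h1 ?_ ?_).hasDerivAt)
    · simpa using ht
    · right
      simpa using hs
  have hc : Filter.Tendsto (fun t : ℝ => (gt s ((Real.sqrt s : ℂ) + t * I)).im) (nhdsWithin 1 (Set.Iio 1))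
      (nhds ((gt s ((Real.sqrt s : ℂ) + (1 : ℝ) * I)).im)) :=
    (hd 1 one_pos).continuousAt.continuousWithinAt
  -- compare with the value at 1/2
  have hp : ∀ t : ℝ, 0 < t → t < 1 → 0 < ((gp s ((Real.sqrt s : ℂ) + t * I)) * I).im := gp_vert h0 h1
  have hm : MonotoneOn (fun t : ℝ => (gt s ((Real.sqrt s : ℂ) + t * I)).im) (Set.Icc (1 / 2) 1) := by
    refine monotoneOn_of_deriv_nonneg (convex_Icc _ _) ?_ ?_ ?_
    · intro t ht
      exact (hd t (by linarith [ht.1])).continuousAt.continuousWithinAt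
    · intro t ht
      rw [interior_Icc] at ht
      exact (hd t (by linarith [ht.1])).differentiableAt.differentiableWithinAt
    · intro t ht
      rw [interior_Icc] at ht
      rw [(hd t (by linarith [ht.1])).deriv]
      exact (hp t (by linarith [ht.1]) ht.2).le
  have h2 := hm (Set.left_mem_Icc.2 (by norm_num)) (Set.right_mem_Icc.2 (by norm_num)) (by norm_num)
  have h3 := gt_im_vert h0 h1 (y := 1 / 2) (by norm_num) (by norm_num)
  simp only [ofReal_one, one_mul] at h2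
  linarith

/-- the segment at height one -/
theorem gt_im_hor {s : ℝ} (h0 : 0 < s) (h1 : s < 1) {x : ℝ} (hx : 0 < x) (hx1 : x ≤ Real.sqrt s) :
    s * Real.pi < (gt s ((x : ℂ) + I)).im := by
  have hd : ∀ t : ℝ, 0 < t → HasDerivAt (fun t : ℝ => (gt s (I + t * 1)).im) ((gp s (I + t * 1)) * 1).im t := by
    intro t ht
    refine im_deriv (seg_deriv (hasStrictDerivAt_gt h0.le h1 ?_ ?_).hasDerivAt)
    · simp
    · right
      simpa using ht
  have hm : AntitoneOn (fun t : ℝ => (gt s (I + t * 1)).im) (Set.Icc x (Real.sqrt s)) := by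
    refine antitoneOn_of_deriv_nonpos (convex_Icc _ _) ?_ ?_ ?_
    · intro t ht
      exact (hd t (by linarith [ht.1])).continuousAt.continuousWithinAt
    · intro t ht
      rw [interior_Icc] at ht
      exact (hd t (by linarith [ht.1])).differentiableAt.differentiableWithinAt
    · intro t ht
      rw [interior_Icc] at ht
      rw [(hd t (by linarith [ht.1])).deriv, mul_one]
      refine (gp_im_neg h0 h1 (by simp) ?_).le
      intro h
      have := congrArg Complex.re h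
      simp at this
      linarith [ht.1]
  have h2 := hm (Set.left_mem_Icc.2 hx1) (Set.right_mem_Icc.2 hx1) hx1
  have h3 := gt_im_vert_one h0 h1
  simp only [mul_one] at h2
  rw [add_comm I, add_comm I] at h2
  linarith

end SM
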