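import Pool.Agent.Lib.MP_216314_pr.SM.B

/-!
# The glued curve lies below the tip
-/

set_option autoImplicit false

noncomputable section

namespace SM

open Complex

theorem sg_hyp {s a b t : ℝ} (h0 : 0 < s) (h1 : s < 1) (ha : 0 < a) (hb : 0 < b) (hb1 : b < 1)
    (ht : 0 ≤ t) (ht1 : t ≤ 1) :
    HasDerivAt (fun t : ℝ => gu s ((Real.sqrt s : ℂ) + t * (-(a : ℂ) + b * I)))
      (gp s ((Real.sqrt s : ℂ) + t * (-(a : ℂ) + b * I)) * (-(a : ℂ) + b * I)) t := by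
  have hk := w1_gt h0 h1
  refine seg_deriv (hasStrictDerivAt_gu h0.le h1 ?_ ?_ ?_).hasDerivAt
  · simp
    nlinarith
  · simp
    nlinarith
  · left
    simp
    nlinarith

theorem v_re {s a b t : ℝ} : (((Real.sqrt s : ℂ) + t * (-(a : ℂ) + b * I) - (w1 s : ℂ)) *
    (((Real.sqrt s : ℂ) + t * (-(a : ℂ) + b * I)) ^ 2 + 1)).re =
    (Real.sqrt s - t * a - w1 s) * (1 + (Real.sqrt s - t * a) ^ 2 - (t * b) ^ 2) -
      (t * b) * (2 * (Real.sqrt s - t * a) * (t * b)) := by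
  rw [mul_re, sq_re, sq_im]
  simp
  ring

theorem v_im {s a b t : ℝ} : (((Real.sqrt s : ℂ) + t * (-(a : ℂ) + b * I) - (w1 s : ℂ)) *
    (((Real.sqrt s : ℂ) + t * (-(a : ℂ) + b * I)) ^ 2 + 1)).im =
    (Real.sqrt s - t * a - w1 s) * (2 * (Real.sqrt s - t * a) * (t * b)) +
      (t * b) * (1 + (Real.sqrt s - t * a) ^ 2 - (t * b) ^ 2) := by
  rw [mul_im, sq_re, sq_im]
  simp
  ring

theorem cube {a b : ℝ} : (-(a : ℂ) + b * I) ^ 3 = ((-a ^ 3 + 3 * a * b ^ 2 : ℝ) : ℂ) + ((3 * a ^ 2 * b - b ^ 3 : ℝ) : ℂ) * I := by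
  push_cast
  have h2 := I_sq
  have h3 : I ^ 3 = -I := I_pow_three
  linear_combination (-3 * (a : ℂ) * (b : ℂ) ^ 2) * h2 + (b : ℂ) ^ 3 * h3

theorem cre (t p q : ℝ) : ((t : ℂ) ^ 2 * ((p : ℂ) + (q : ℂ) * I)).re = t ^ 2 * p := by
  rw [← ofReal_pow, re_ofReal_mul]
  simp

theorem cim (t p q : ℝ) : ((t : ℂ) ^ 2 * ((p : ℂ) + (q : ℂ) * I)).im = t ^ 2 * q := by
  rw [← ofReal_pow, im_ofReal_mul]
  simp

theorem gpz {s a b t : ℝ} : gp s ((Real.sqrt s : ℂ) + t * (-(a : ℂ) + b * I)) * (-(a : ℂ) + b * I) =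
    ((t : ℂ) ^ 2 * (-(a : ℂ) + b * I) ^ 3) / (((Real.sqrt s : ℂ) + t * (-(a : ℂ) + b * I) - (w1 s : ℂ)) *
    (((Real.sqrt s : ℂ) + t * (-(a : ℂ) + b * I)) ^ 2 + 1)) := by
  rw [gp, div_mul_eq_mul_div]
  congr 1
  ring

/-- the flat part -/
theorem flat {s a b : ℝ} (h0 : 0 < s) (h1 : s < 1) (ha : 0 < a) (has : a < Real.sqrt s) (hb : 0 < b) (hb1 : b < 1)
    (hab : 3 * b ^ 2 ≤ a ^ 2) : (gu s ((Real.sqrt s : ℂ) + (-(a : ℂ) + b * I))).im < s * Real.pi := by
  have hk := w1_gt h0 h1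
  have hm : StrictAntiOn (fun t : ℝ => (gu s ((Real.sqrt s : ℂ) + t * (-(a : ℂ) + b * I))).im) (Set.Icc 0 1) := by
    refine strictAntiOn_of_deriv_neg (convex_Icc _ _) ?_ ?_
    · intro t ht
      exact (im_deriv (sg_hyp h0 h1 ha hb hb1 ht.1 ht.2)).continuousAt.continuousWithinAt
    · intro t ht
      rw [interior_Icc] at ht
      rw [(im_deriv (sg_hyp h0 h1 ha hb hb1 ht.1.le ht.2.le)).deriv, gpz, cube]
      refine im_div_neg ?_
      rw [v_re, v_im]
      rw [cre, cim]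
      obtain ⟨ht0, ht1⟩ := ht
      have hta : t * a < Real.sqrt s := by nlinarith
      have htb : t * b < 1 := by nlinarith
      have htb0 : 0 < t * b := by positivity
      have hA : 0 ≤ a * (a ^ 2 - 3 * b ^ 2) := mul_nonneg ha.le (by linarith)
      have hB : 0 < b * (3 * a ^ 2 - b ^ 2) := mul_pos hb (by nlinarith)
      have hp : 0 < 1 + (Real.sqrt s - t * a) ^ 2 - (t * b) ^ 2 := by nlinarith [sq_nonneg (Real.sqrt s - t * a)]
      have hq : 0 < 2 * (Real.sqrt s - t * a) * (t * b) := by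
        have : 0 < Real.sqrt s - t * a := by linarith
        positivity
      have hkt : 0 < w1 s - Real.sqrt s := by linarith
      have key1 : (b * (3 * a ^ 2 - b ^ 2)) * (Real.sqrt s - t * a - w1 s) + (a * (a ^ 2 - 3 * b ^ 2)) * (t * b) < 0 := by
        have : (b * (3 * a ^ 2 - b ^ 2)) * (Real.sqrt s - t * a - w1 s) + (a * (a ^ 2 - 3 * b ^ 2)) * (t * b) =
            -((b * (3 * a ^ 2 - b ^ 2)) * (w1 s - Real.sqrt s)) - 2 * t * a * b * (a ^ 2 + b ^ 2) := by ring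
        rw [this]
        have k1 : 0 < (b * (3 * a ^ 2 - b ^ 2)) * (w1 s - Real.sqrt s) := mul_pos hB hkt
        have k2 : 0 < 2 * t * a * b * (a ^ 2 + b ^ 2) := by positivity
        linarith
      have key2 : (a * (a ^ 2 - 3 * b ^ 2)) * (Real.sqrt s - t * a - w1 s) - (b * (3 * a ^ 2 - b ^ 2)) * (t * b) < 0 := by
        have k1 : 0 ≤ (a * (a ^ 2 - 3 * b ^ 2)) * (w1 s - (Real.sqrt s - t * a)) :=
          mul_nonneg hA (by nlinarith [mul_pos ht0 ha])
        have k2 : 0 < (b * (3 * a ^ 2 - b ^ 2)) * (t * b) := mul_pos hB htb0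
        nlinarith
      have key3 := mul_neg_of_pos_of_neg hp key1
      have key4 := mul_neg_of_pos_of_neg hq key2
      have ht2 : 0 < t ^ 2 := by positivity
      have key5 := mul_neg_of_pos_of_neg ht2 (add_neg key3 key4)
      nlinarith [key5]
  have := hm (Set.left_mem_Icc.2 zero_le_one) (Set.right_mem_Icc.2 zero_le_one) one_pos
  simp only [ofReal_zero, zero_mul, add_zero, ofReal_one, one_mul] at this
  rw [gu_tip h0 h1] at this
  simpa using this

/-- the steep part -/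
theorem steep {s a b : ℝ} (h0 : 0 < s) (h1 : s < 1) (ha : 0 < a) (has : a < Real.sqrt s) (hb : 0 < b) (hb1 : b < 1)
    (hab : a ^ 2 < 3 * b ^ 2) (him : (gu s ((Real.sqrt s : ℂ) + (-(a : ℂ) + b * I))).im = s * Real.pi) :
    (gu s ((Real.sqrt s : ℂ) + (-(a : ℂ) + b * I))).re < cst s := by
  have hk := w1_gt h0 h1
  set A : ℝ := -a ^ 3 + 3 * a * b ^ 2 with hAdef
  set B : ℝ := 3 * a ^ 2 * b - b ^ 3 with hBdef
  have hA : 0 < A := by
    have : A = a * (3 * b ^ 2 - a ^ 2) := by rw [hAdef]; ring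
    rw [this]
    exact mul_pos ha (by linarith)
  have hd : ∀ t : ℝ, 0 ≤ t → t ≤ 1 → HasDerivAt
      (fun t : ℝ => (-((A : ℂ) - B * I) * gu s ((Real.sqrt s : ℂ) + t * (-(a : ℂ) + b * I))).re)
      (-((A : ℂ) - B * I) * (gp s ((Real.sqrt s : ℂ) + t * (-(a : ℂ) + b * I)) * (-(a : ℂ) + b * I))).re t := by
    intro t ht ht1
    exact re_deriv ((sg_hyp h0 h1 ha hb hb1 ht ht1).const_mul (-((A : ℂ) - B * I)))
  have hm : StrictMonoOn (fun t : ℝ => (-((A : ℂ) - B * I) * gu s ((Real.sqrt s : ℂ) + t * (-(a : ℂ) + b * I))).re)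
      (Set.Icc 0 1) := by
    refine strictMonoOn_of_deriv_pos (convex_Icc _ _) ?_ ?_
    · intro t ht
      exact (hd t ht.1 ht.2).continuousAt.continuousWithinAt
    · intro t ht
      rw [interior_Icc] at ht
      rw [(hd t ht.1.le ht.2.le).deriv, gpz, cube, ← hAdef, ← hBdef]
      have e0 : -((A : ℂ) - B * I) * ((t : ℂ) ^ 2 * ((A : ℂ) + B * I) / (((Real.sqrt s : ℂ) + t * (-(a : ℂ) + b * I) - (w1 s : ℂ)) *
          (((Real.sqrt s : ℂ) + t * (-(a : ℂ) + b * I)) ^ 2 + 1))) = ((-(t ^ 2 * (A ^ 2 + B ^ 2)) : ℝ) : ℂ) /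
          (((Real.sqrt s : ℂ) + t * (-(a : ℂ) + b * I) - (w1 s : ℂ)) *
          (((Real.sqrt s : ℂ) + t * (-(a : ℂ) + b * I)) ^ 2 + 1)) := by
        rw [← mul_div_assoc]
        congr 1
        push_cast
        linear_combination ((t : ℂ) ^ 2 * (B : ℂ) ^ 2) * I_sq
      rw [e0]
      refine re_div_pos ?_
      rw [v_re, v_im, ofReal_re, ofReal_im]
      obtain ⟨ht0, ht1⟩ := ht
      have hta : t * a < Real.sqrt s := by nlinarith
      have htb : t * b < 1 := by nlinarith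
      have htb0 : 0 < t * b := by positivity
      have hta0 : 0 < t * a := by positivity
      have hp : 0 < 1 + (Real.sqrt s - t * a) ^ 2 - (t * b) ^ 2 := by nlinarith [sq_nonneg (Real.sqrt s - t * a)]
      have hq : 0 < 2 * (Real.sqrt s - t * a) * (t * b) := by
        have : 0 < Real.sqrt s - t * a := by linarith
        positivity
      have k1 : (Real.sqrt s - t * a - w1 s) * (1 + (Real.sqrt s - t * a) ^ 2 - (t * b) ^ 2) < 0 :=
        mul_neg_of_neg_of_pos (by linarith) hp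
      have k2 : 0 < (t * b) * (2 * (Real.sqrt s - t * a) * (t * b)) := mul_pos htb0 hq
      have k3 : 0 < t ^ 2 * (A ^ 2 + B ^ 2) := by positivity
      rw [zero_mul, add_zero]
      exact mul_pos_of_neg_of_neg (by linarith) (by linarith)
  have := hm (Set.left_mem_Icc.2 zero_le_one) (Set.right_mem_Icc.2 zero_le_one) one_pos
  simp only [ofReal_zero, zero_mul, add_zero, ofReal_one, one_mul] at this
  rw [gu_tip h0 h1] at this
  have e1 : (-((A : ℂ) - B * I) * ((cst s : ℂ) + (s * Real.pi : ℂ) * I)).re = -(A * cst s + B * (s * Real.pi)) := by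
    simp
    ring
  have e2 : (-((A : ℂ) - B * I) * gu s ((Real.sqrt s : ℂ) + (-(a : ℂ) + b * I))).re =
      -(A * (gu s ((Real.sqrt s : ℂ) + (-(a : ℂ) + b * I))).re + B * (gu s ((Real.sqrt s : ℂ) + (-(a : ℂ) + b * I))).im) := by
    rw [mul_re]
    simp
    ring
  rw [e1, e2, him] at this
  have h3 : A * (gu s ((Real.sqrt s : ℂ) + (-(a : ℂ) + b * I))).re < A * cst s := by linarith
  exact lt_of_mul_lt_mul_left h3 hA.le

/-- the glued curve -/
def Ga (s : ℝ) : Set ℂ := {w | 0 < w.im ∧ w.im < 1 ∧ w.re < Real.sqrt s ∧ (gt s w).im = s * Real.pi}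

theorem Ga_re_pos {s : ℝ} (h0 : 0 < s) (h1 : s < 1) {w : ℂ} (hw : w ∈ Ga s) : 0 < w.re := by
  by_contra h
  have := gt_im_left h0 h1 hw.1 hw.2.1 (not_lt.1 h)
  linarith [hw.2.2.2]

theorem Ga_lt {s : ℝ} (h0 : 0 < s) (h1 : s < 1) {w : ℂ} (hw : w ∈ Ga s) : (gt s w).re < cst s := by
  have hr := Ga_re_pos h0 h1 hw
  obtain ⟨hw0, hw1, hw2, hw3⟩ := hw
  have e : w = (Real.sqrt s : ℂ) + (-((Real.sqrt s - w.re : ℝ) : ℂ) + (w.im : ℂ) * I) := by
    apply Complex.ext <;> simp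
  rw [gt_eq_gu s hw0 hw1] at hw3 ⊢
  by_cases h : 3 * w.im ^ 2 ≤ (Real.sqrt s - w.re) ^ 2
  · exfalso
    have := flat h0 h1 (a := Real.sqrt s - w.re) (b := w.im) (by linarith) (by linarith) hw0 hw1 h
    rw [← e] at this
    linarith
  · push Not at h
    rw [e] at hw3 ⊢
    exact steep h0 h1 (a := Real.sqrt s - w.re) (b := w.im) (by linarith) (by linarith) hw0 hw1 h hw3

end SM
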