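import Mathlib

/-!
# The continuum surface of Schramm's formula and the explicit conformal map of the upper half plane onto it

Coordinates `X = x + y`, `Y = x - y` of the point `x + i y`. The surface: the strip `0 < X < 1`, slit along `X = s`, `Y ≤ 0`, the right side of
the slit glued with the half line `X = 1`, `Y < 0`.
-/

set_option autoImplicit false

noncomputable section

namespace SM

open Complex

/-- the points of the surface (the glued line is represented by `X = 1`, `Y < 0`) -/
def Om (s : ℝ) : Set ℂ :=
  {z | (0 < z.re + z.im ∧ z.re + z.im < 1 ∧ ¬ (z.re + z.im = s ∧ z.re ≤ z.im)) ∨ (z.re + z.im = 1 ∧ z.re < z.im)}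

/-- the end of the left strip -/
def w1 (s : ℝ) : ℝ := 2 * Real.sqrt s / (1 - s)

/-- the map before the choice of the branch -/
def gt (s : ℝ) (w : ℂ) : ℂ := (s : ℂ) * log (w - (w1 s : ℂ)) + ((1 - s) / 2 : ℂ) * (log (w - I) + log (w + I))

/-- the real part at the tip -/
def cst (s : ℝ) : ℝ := s * Real.log (w1 s - Real.sqrt s) + (1 - s) / 2 * Real.log (1 + s)

/-- the part of the half plane where the other branch is used -/
def UU (s : ℝ) : Set ℂ := {w | w.im < 1 ∧ w.re < Real.sqrt s ∧ (gt s w).im ≤ s * Real.pi}

open Classical in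
/-- the conformal map -/
def sc (s : ℝ) (w : ℂ) : ℂ :=
  (gt s w + (if w ∈ UU s then ((1 - s) * Real.pi : ℂ) * I else 0) - (cst s : ℂ)) / ((Real.pi : ℂ) * (1 + I))

end SM
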