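import Pool.Agent.Lib.MP_216314_pr.SM.C

/-!
# The map off the glued curve
-/

set_option autoImplicit false

noncomputable section

namespace SM

open Complex Topology Filter

open Classical in
/-- the map up to an affine change -/
def G (s : ℝ) (w : ℂ) : ℂ := gt s w + (if w ∈ UU s then ((1 - s) * Real.pi : ℂ) * I else 0)

/-- the upper half plane without `i` and the glued curve -/
def DD (s : ℝ) : Set ℂ := {w | 0 < w.im ∧ w ≠ I ∧ w ∉ Ga s}

theorem G_of_mem {s : ℝ} {w : ℂ} (h : w ∈ UU s) : G s w = gt s w + ((1 - s) * Real.pi : ℂ) * I := by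
  rw [G, if_pos h]

theorem G_of_not {s : ℝ} {w : ℂ} (h : w ∉ UU s) : G s w = gt s w := by
  rw [G, if_neg h, add_zero]

theorem G_re (s : ℝ) (w : ℂ) : (G s w).re = (gt s w).re := by
  rw [G]
  split_ifs <;> simp

theorem G_cases (s : ℝ) (w : ℂ) : G s w - gt s w ∈ ({0, ((1 - s) * Real.pi : ℂ) * I} : Set ℂ) := by
  rw [G]
  split_ifs <;> simp

theorem local_form {s : ℝ} (h0 : 0 < s) (h1 : s < 1) {w : ℂ} (hw : w ∈ DD s) :
    ∃ f : ℂ → ℂ, HasStrictDerivAt f (gp s w) w ∧ ∀ᶠ z in 𝓝 w, z ∈ DD s ∧ G s z = f z := by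
  obtain ⟨hw0, hw1, hw2⟩ := hw
  have hs := Real.sqrt_pos.2 h0
  have him : ∀ᶠ z in 𝓝 w, 0 < z.im := (continuous_im.tendsto w).eventually (lt_mem_nhds hw0)
  have hne : ∀ᶠ z in 𝓝 w, z ≠ I := isOpen_ne.mem_nhds hw1
  by_cases hre : w.re < 0
  · refine ⟨gv s, hasStrictDerivAt_gv h0.le h1 hw0 hre, ?_⟩
    filter_upwards [him, hne, (continuous_re.tendsto w).eventually (gt_mem_nhds hre)] with z z1 z2 z3
    by_cases z4 : z.im < 1
    · have z5 := gt_im_left h0 h1 z1 z4 z3.le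
      refine ⟨⟨z1, z2, fun h => ?_⟩, ?_⟩
      · linarith [h.2.2.2]
      · rw [G_of_mem ⟨z4, lt_trans z3 hs, z5.le⟩, gv_eq' s z3 z4]
    · push Not at z4
      refine ⟨⟨z1, z2, fun h => ?_⟩, ?_⟩
      · linarith [h.2.1]
      · rw [G_of_not (fun h => absurd h.1 (not_lt.2 z4)), gv_eq s z3 z4]
  push Not at hre
  have aux : ∀ hd : HasStrictDerivAt (gt s) (gp s w) w, s * Real.pi < (gt s w).im →
      ∃ f : ℂ → ℂ, HasStrictDerivAt f (gp s w) w ∧ ∀ᶠ z in 𝓝 w, z ∈ DD s ∧ G s z = f z := by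
    intro hd h
    refine ⟨gt s, hd, ?_⟩
    have hc : ContinuousAt (fun z => (gt s z).im) w := continuous_im.continuousAt.comp hd.hasDerivAt.continuousAt
    filter_upwards [him, hne, hc.eventually (lt_mem_nhds h)] with z z1 z2 z3
    exact ⟨⟨z1, z2, fun h => absurd h.2.2.2 z3.ne'⟩, G_of_not (fun h => absurd h.2.2 (not_le.2 z3))⟩
  have aux2 : ∀ hd : HasStrictDerivAt (gt s) (gp s w) w, Real.sqrt s < w.re →
      ∃ f : ℂ → ℂ, HasStrictDerivAt f (gp s w) w ∧ ∀ᶠ z in 𝓝 w, z ∈ DD s ∧ G s z = f z := by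
    intro hd h
    refine ⟨gt s, hd, ?_⟩
    filter_upwards [him, hne, (continuous_re.tendsto w).eventually (lt_mem_nhds h)] with z z1 z2 z3
    exact ⟨⟨z1, z2, fun h => absurd h.2.2.1 (not_lt.2 z3.le)⟩, G_of_not (fun h => absurd h.2.1 (not_lt.2 z3.le))⟩
  rcases lt_trichotomy w.im 1 with h | h | h
  · have hd := hasStrictDerivAt_gt h0.le h1 hw0 (Or.inl h.ne)
    rcases lt_trichotomy w.re (Real.sqrt s) with k | k | k
    · have h3 : (gt s w).im ≠ s * Real.pi := fun h3 => hw2 ⟨hw0, h, k, h3⟩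
      rcases lt_or_gt_of_ne h3 with h4 | h4
      · refine ⟨fun z => gt s z + ((1 - s) * Real.pi : ℂ) * I, hd.add_const _, ?_⟩
        have hc : ContinuousAt (fun z => (gt s z).im) w := continuous_im.continuousAt.comp hd.hasDerivAt.continuousAt
        filter_upwards [him, hne, hc.eventually (gt_mem_nhds h4), (continuous_re.tendsto w).eventually (gt_mem_nhds k),
          (continuous_im.tendsto w).eventually (gt_mem_nhds h)] with z z1 z2 z3 z4 z5
        exact ⟨⟨z1, z2, fun h => absurd h.2.2.2 z3.ne⟩, G_of_mem ⟨z5, z4, z3.le⟩⟩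
      · exact aux hd h4
    · refine aux hd ?_
      have e : w = (Real.sqrt s : ℂ) + w.im * I := by
        rw [← k]
        exact (re_add_im w).symm
      rw [e]
      exact gt_im_vert h0 h1 hw0 h
    · exact aux2 hd k
  · have hre2 : 0 < w.re := by
      rcases eq_or_lt_of_le hre with k | k
      · exfalso
        apply hw1
        apply Complex.ext
        · simpa using k.symm
        · simpa using h
      · exact k
    have hd := hasStrictDerivAt_gt h0.le h1 hw0 (Or.inr hre2)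
    by_cases k : Real.sqrt s < w.re
    · exact aux2 hd k
    · push Not at k
      refine aux hd ?_
      have e : w = (w.re : ℂ) + I := by
        apply Complex.ext <;> simp [h]
      rw [e]
      exact gt_im_hor h0 h1 hre2 k
  · have hd := hasStrictDerivAt_gt h0.le h1 hw0 (Or.inl h.ne')
    refine ⟨gt s, hd, ?_⟩
    filter_upwards [him, hne, (continuous_im.tendsto w).eventually (lt_mem_nhds h)] with z z1 z2 z3
    exact ⟨⟨z1, z2, fun h => absurd h.2.1 (not_lt.2 z3.le)⟩, G_of_not (fun h => absurd h.1 (not_lt.2 z3.le))⟩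

theorem isOpen_DD {s : ℝ} (h0 : 0 < s) (h1 : s < 1) : IsOpen (DD s) := by
  rw [isOpen_iff_mem_nhds]
  intro w hw
  obtain ⟨f, -, hf⟩ := local_form h0 h1 hw
  filter_upwards [hf] with z hz
  exact hz.1

theorem hasStrictDerivAt_G {s : ℝ} (h0 : 0 < s) (h1 : s < 1) {w : ℂ} (hw : w ∈ DD s) :
    HasStrictDerivAt (G s) (gp s w) w := by
  obtain ⟨f, hf, hf2⟩ := local_form h0 h1 hw
  refine hf.congr_of_eventuallyEq ?_
  filter_upwards [hf2] with z hz
  exact hz.2.symm

/-- the values -/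
theorem G_im {s : ℝ} (h0 : 0 < s) (h1 : s < 1) {w : ℂ} (hw : w ∈ DD s) : 0 < (G s w).im ∧ (G s w).im < Real.pi := by
  obtain ⟨hw0, hw1, hw2⟩ := hw
  have hpi := Real.pi_pos
  have hs := Real.sqrt_pos.2 h0
  by_cases hU : w ∈ UU s
  · rw [G_of_mem hU]
    have e : (gt s w + ((1 - s) * Real.pi : ℂ) * I).im = (gt s w).im + (1 - s) * Real.pi := by simp
    rw [e]
    obtain ⟨u1, u2, u3⟩ := hU
    have u4 := gt_im_gt h0 h1 hw0 u1
    have u5 : (gt s w).im < s * Real.pi := lt_of_le_of_ne u3 (fun h => hw2 ⟨hw0, u1, u2, h⟩)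
    constructor <;> nlinarith
  · rw [G_of_not hU]
    by_cases h : w.im < 1
    · constructor
      · by_cases k : 0 < w.re
        · exact gt_im_right h0 h1 hw0 h k
        · exfalso
          push Not at k
          exact hU ⟨h, lt_of_le_of_lt k hs, (gt_im_left h0 h1 hw0 h k).le⟩
      · have := gt_im_lt h0 h1 hw0 h
        nlinarith
    · push Not at h
      exact gt_im_up h0 h1 h

theorem Ga_UU {s : ℝ} {w : ℂ} (hw : w ∈ Ga s) : w ∈ UU s := ⟨hw.2.1, hw.2.2.1, hw.2.2.2.le⟩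

theorem G_Ga {s : ℝ} (h0 : 0 < s) (h1 : s < 1) {w : ℂ} (hw : w ∈ Ga s) :
    (G s w).im = Real.pi ∧ (G s w).re < cst s := by
  constructor
  · rw [G_of_mem (Ga_UU hw)]
    have e : (gt s w + ((1 - s) * Real.pi : ℂ) * I).im = (gt s w).im + (1 - s) * Real.pi := by simp
    rw [e, hw.2.2.2]
    ring
  · rw [G_re]
    exact Ga_lt h0 h1 hw

end SM
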