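import Pool.Agent.Lib.MP_216314_pr.SM.F

/-!
# The ends, in the form of limits
-/

set_option autoImplicit false

noncomputable section

namespace SM

open Complex Topology Filter Bornology

theorem Y_lt_of {s : ℝ} (w : ℂ) {M : ℝ} (h : (gt s w).re < cst s + Real.pi * M) : (sc s w).re - (sc s w).im < M := by
  rw [sc_Y, div_lt_iff₀ Real.pi_pos, G_re]
  linarith

/-- the end of the left strip -/
theorem sc_end_w1 {s : ℝ} (h0 : 0 < s) (h1 : s < 1) (M : ℝ) :
    ∀ᶠ w in 𝓝[{w : ℂ | 0 < w.im}] (w1 s : ℂ), (sc s w).re - (sc s w).im < M ∧ (sc s w).re + (sc s w).im < s := by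
  have h2 : 𝓝[{w : ℂ | 0 < w.im}] (w1 s : ℂ) ≤ 𝓝[≠] (w1 s : ℂ) := by
    refine nhdsWithin_mono _ ?_
    intro w hw h
    have hw0 : 0 < w.im := hw
    rw [Set.mem_singleton_iff.1 h, ofReal_im] at hw0
    exact lt_irrefl _ hw0
  filter_upwards [h2 ((gt_re_w1 h0).eventually (eventually_lt_atBot (cst s + Real.pi * M))), nhdsWithin_le_nhds (near_w1 h0 h1),
    self_mem_nhdsWithin] with w a b c
  refine ⟨Y_lt_of w a, ?_⟩
  rw [sc_X, div_lt_iff₀ Real.pi_pos]
  exact b c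

/-- the end of the cylinder -/
theorem sc_end_I {s : ℝ} (h0 : 0 < s) (h1 : s < 1) (M : ℝ) :
    ∀ᶠ w in 𝓝[≠] I, (sc s w).re - (sc s w).im < M ∧ s < (sc s w).re + (sc s w).im := by
  filter_upwards [(gt_re_I h1).eventually (eventually_lt_atBot (cst s + Real.pi * M)), nhdsWithin_le_nhds (near_I h0 h1),
    self_mem_nhdsWithin] with w a b c
  refine ⟨Y_lt_of w a, ?_⟩
  rw [sc_X, lt_div_iff₀ Real.pi_pos]
  exact b c

/-- the upper end -/
theorem sc_end_inf {s : ℝ} (h0 : 0 < s) (h1 : s < 1) (M : ℝ) :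
    ∀ᶠ w in cocompact ℂ ⊓ 𝓟 {w : ℂ | 0 < w.im}, M < (sc s w).re - (sc s w).im := by
  refine Filter.Eventually.filter_mono inf_le_left ?_
  rw [← Metric.cobounded_eq_cocompact]
  filter_upwards [(gt_re_cob h0 h1).eventually (eventually_gt_atTop (cst s + Real.pi * M))] with w a
  rw [sc_Y, lt_div_iff₀ Real.pi_pos, G_re]
  linarith

/-- the left boundary -/
theorem sc_left {s : ℝ} (h0 : 0 < s) (h1 : s < 1) {x : ℝ} (hx : w1 s < x) :
    Tendsto (fun w => (sc s w).re + (sc s w).im) (𝓝[{w | 0 < w.im}] (x : ℂ)) (𝓝 0) := by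
  have := (near_right h0 h1 hx).div_const Real.pi
  rw [zero_div] at this
  refine this.congr fun w => ?_
  rw [sc_X]

end SM
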