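import Pool.Agent.Lib.MP_216314_pr.SM.Q

/-!
# The conformal map of the upper half plane without `i` onto the glued surface
-/

set_option autoImplicit false

noncomputable section

namespace SM

open Complex Topology Filter Bornology

theorem coords (z : ℂ) : (z / ((Real.pi : ℂ) * (1 + I))).re + (z / ((Real.pi : ℂ) * (1 + I))).im = z.im / Real.pi ∧
    (z / ((Real.pi : ℂ) * (1 + I))).re - (z / ((Real.pi : ℂ) * (1 + I))).im = z.re / Real.pi := by
  have hpi := Real.pi_ne_zero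
  have h1 : (1 + I : ℂ) ≠ 0 := by
    intro h
    have := congrArg Complex.re h
    simp at this
  have e : z / ((Real.pi : ℂ) * (1 + I)) = (((z.re + z.im) / (2 * Real.pi) : ℝ) : ℂ) + (((z.im - z.re) / (2 * Real.pi) : ℝ) : ℂ) * I := by
    have hp : (Real.pi : ℂ) ≠ 0 := ofReal_ne_zero.2 hpi
    rw [div_eq_iff (mul_ne_zero hp h1)]
    nth_rewrite 1 [← re_add_im z]
    push_cast
    field_simp
    linear_combination (z.re - z.im : ℂ) * I_sq
  rw [e]
  simp only [add_re, add_im, ofReal_re, ofReal_im, re_ofReal_mul, im_ofReal_mul, I_re, I_im, mul_zero, mul_one, add_zero, zero_add]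
  constructor
  · field_simp
    ring
  · field_simp
    ring

theorem sc_eq (s : ℝ) (w : ℂ) : sc s w = (G s w - (cst s : ℂ)) / ((Real.pi : ℂ) * (1 + I)) := rfl

theorem sc_X (s : ℝ) (w : ℂ) : (sc s w).re + (sc s w).im = (G s w).im / Real.pi := by
  rw [sc_eq, (coords _).1]
  simp

theorem sc_Y (s : ℝ) (w : ℂ) : (sc s w).re - (sc s w).im = ((G s w).re - cst s) / Real.pi := by
  rw [sc_eq, (coords _).2]
  simp

/-- the inverse of the affine change -/
theorem aff (s : ℝ) (z : ℂ) : (((Real.pi : ℂ) * (1 + I)) * z + (cst s : ℂ)).im = Real.pi * (z.re + z.im) ∧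
    (((Real.pi : ℂ) * (1 + I)) * z + (cst s : ℂ)).re = Real.pi * (z.re - z.im) + cst s := by
  constructor
  · simp
    ring
  · simp
    ring

theorem pi_ne : (Real.pi : ℂ) * (1 + I) ≠ 0 := by
  refine mul_ne_zero (ofReal_ne_zero.2 Real.pi_ne_zero) ?_
  intro h
  have := congrArg Complex.re h
  simp at this

theorem bij3 {s : ℝ} (h0 : 0 < s) (h1 : s < 1) : Set.BijOn (G s) {w : ℂ | 0 < w.im ∧ w ≠ I}
    (TT s ∪ {z | z.im = Real.pi ∧ z.re < cst s}) := by
  have e : {w : ℂ | 0 < w.im ∧ w ≠ I} = DD s ∪ Ga s := by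
    ext w
    constructor
    · rintro ⟨a, b⟩
      by_cases h : w ∈ Ga s
      · exact Or.inr h
      · exact Or.inl ⟨a, b, h⟩
    · rintro (h | h)
      · exact ⟨h.1, h.2.1⟩
      · refine ⟨h.1, fun k => ?_⟩
        have := h.2.1
        rw [k] at this
        simp at this
  rw [e]
  refine (bij2 h0 h1).union (bij_Ga h0 h1) ?_
  have hne : ∀ w ∈ DD s, ∀ w' ∈ Ga s, G s w ≠ G s w' := by
    intro w hw w' hw' he
    have h2 := (G_im h0 h1 hw).2
    have h3 := (G_Ga h0 h1 hw').1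
    rw [he, h3] at h2
    exact lt_irrefl _ h2
  rintro w (hw | hw) w' (hw' | hw') he
  · exact (bij2 h0 h1).injOn hw hw' he
  · exact absurd he (hne w hw w' hw')
  · exact absurd he.symm (hne w' hw' w hw)
  · exact (bij_Ga h0 h1).injOn hw hw' he

theorem bij_sc {s : ℝ} (h0 : 0 < s) (h1 : s < 1) : Set.BijOn (sc s) {w : ℂ | 0 < w.im ∧ w ≠ I} (Om s) := by
  have hpi := Real.pi_pos
  have h := bij3 h0 h1
  refine ⟨fun w hw => ?_, fun w hw w' hw' he => ?_, fun z hz => ?_⟩
  · have hX := sc_X s w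
    have hY := sc_Y s w
    rcases h.mapsTo hw with k | k
    · left
      rw [hX]
      refine ⟨div_pos k.1 hpi, (div_lt_one hpi).2 k.2.1, ?_⟩
      rintro ⟨a, b⟩
      refine k.2.2 ⟨by rwa [div_eq_iff hpi.ne'] at a, ?_⟩
      have c : ((G s w).re - cst s) / Real.pi ≤ 0 := by rw [← hY]; linarith
      rw [div_le_iff₀ hpi] at c
      linarith
    · right
      rw [hX, k.1]
      refine ⟨div_self hpi.ne', ?_⟩
      have c : ((G s w).re - cst s) / Real.pi < 0 := div_neg_of_neg_of_pos (by linarith [k.2]) hpi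
      rw [← hY] at c
      linarith
  · refine h.injOn hw hw' ?_
    rw [sc_eq, sc_eq, div_left_inj' pi_ne] at he
    exact sub_left_injective he
  · obtain ⟨a1, a2⟩ := aff s z
    have hmem : ((Real.pi : ℂ) * (1 + I)) * z + (cst s : ℂ) ∈ TT s ∪ {z | z.im = Real.pi ∧ z.re < cst s} := by
      rcases hz with ⟨b1, b2, b3⟩ | ⟨b1, b2⟩
      · left
        refine ⟨by rw [a1]; positivity, by rw [a1]; nlinarith, ?_⟩
        rintro ⟨c1, c2⟩
        rw [a1] at c1
        rw [a2] at c2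
        refine b3 ⟨?_, ?_⟩
        · have : Real.pi * (z.re + z.im) = Real.pi * s := by linarith
          exact mul_left_cancel₀ hpi.ne' this
        · have : Real.pi * (z.re - z.im) ≤ 0 := by linarith
          by_contra h4
          push Not at h4
          have := mul_pos hpi (sub_pos.2 h4)
          linarith
      · right
        refine ⟨by rw [a1, b1, mul_one], ?_⟩
        rw [a2]
        have := mul_pos hpi (sub_pos.2 b2)
        nlinarith
    obtain ⟨w, hw, hwe⟩ := h.surjOn hmem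
    refine ⟨w, hw, ?_⟩
    rw [sc_eq, hwe, add_sub_cancel_right, mul_div_cancel_left₀ _ pi_ne]

/-- **The conformal map.** -/
theorem conformal_map {s : ℝ} (h0 : 0 < s) (h1 : s < 1) :
    Set.BijOn (sc s) {w : ℂ | 0 < w.im ∧ w ≠ I} (Om s) ∧
    (∀ w : ℂ, 0 < w.im → w ≠ I → (sc s w).re + (sc s w).im < 1 → ∃ d : ℂ, d ≠ 0 ∧ HasDerivAt (sc s) d w) ∧
    (∀ w : ℂ, 0 < w.im → w ≠ I → (sc s w).re + (sc s w).im = 1 → ∃ f : ℂ → ℂ, f w = sc s w ∧
      (∀ᶠ z in 𝓝 w, DifferentiableAt ℂ f z) ∧ deriv f w ≠ 0 ∧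
      ∀ᶠ z in 𝓝 w, sc s z = if (f z).re + (f z).im ≤ 1 then f z else f z - ((1 - s) / 2 : ℂ) * (1 + I)) ∧
    (∀ ε : ℝ, 0 < ε → ∃ M : ℝ, ∀ w : ℂ, 0 < w.im → w ≠ I →
      ((sc s w).re - (sc s w).im < -M → (‖w - (w1 s : ℂ)‖ < ε ∧ (sc s w).re + (sc s w).im < s) ∨
        (‖w - I‖ < ε ∧ s < (sc s w).re + (sc s w).im)) ∧
      (M < (sc s w).re - (sc s w).im → 1 / ε < ‖w‖)) ∧
    (∀ x : ℝ, w1 s < x → Tendsto (fun w => (sc s w).re + (sc s w).im) (𝓝[{w | 0 < w.im}] (x : ℂ)) (𝓝 0)) := by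
  have hpi := Real.pi_pos
  refine ⟨bij_sc h0 h1, ?_, ?_, ?_, ?_⟩
  · intro w hw hwI hX
    have hD : w ∈ DD s := by
      refine ⟨hw, hwI, fun h => ?_⟩
      rw [sc_X, (G_Ga h0 h1 h).1, div_self hpi.ne'] at hX
      exact lt_irrefl _ hX
    refine ⟨gp s w / ((Real.pi : ℂ) * (1 + I)), div_ne_zero (gp_ne_of_im hw hwI) pi_ne, ?_⟩
    exact (((hasStrictDerivAt_G h0 h1 hD).hasDerivAt.sub_const _).div_const _)
  · intro w hw hwI hX
    have hG : w ∈ Ga s := by
      by_contra h
      have := (G_im h0 h1 ⟨hw, hwI, h⟩).2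
      rw [sc_X, div_eq_iff hpi.ne'] at hX
      linarith
    have hn := near_Ga h0 h1 hG
    refine ⟨fun z => (gt s z + ((1 - s) * Real.pi : ℂ) * I - (cst s : ℂ)) / ((Real.pi : ℂ) * (1 + I)), ?_, ?_, ?_, ?_⟩
    · rw [sc_eq, G_of_mem (Ga_UU hG)]
    · filter_upwards [hn] with z hz
      exact ((hz.1.hasDerivAt.sub_const _).div_const _).differentiableAt
    · rw [((hn.self_of_nhds.1.hasDerivAt.sub_const _).div_const _).deriv]
      exact div_ne_zero (gp_ne_of_im hw hwI) pi_ne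
    · filter_upwards [hn] with z hz
      have e1 := (coords (gt s z + ((1 - s) * Real.pi : ℂ) * I - (cst s : ℂ))).1
      have e2 : (gt s z + ((1 - s) * Real.pi : ℂ) * I - (cst s : ℂ)).im = (gt s z + ((1 - s) * Real.pi : ℂ) * I).im := by simp
      have e4 : (((gt s z + ((1 - s) * Real.pi : ℂ) * I - (cst s : ℂ)) / ((Real.pi : ℂ) * (1 + I))).re +
          ((gt s z + ((1 - s) * Real.pi : ℂ) * I - (cst s : ℂ)) / ((Real.pi : ℂ) * (1 + I))).im ≤ 1) ↔
          (gt s z + ((1 - s) * Real.pi : ℂ) * I).im ≤ Real.pi := by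
        rw [e1, e2, div_le_one hpi]
      rw [sc_eq, hz.2]
      by_cases h : (gt s z + ((1 - s) * Real.pi : ℂ) * I).im ≤ Real.pi
      · rw [if_pos h, if_pos (e4.2 h)]
      · rw [if_neg h, if_neg (fun h2 => h (e4.1 h2))]
        have e3 : ((1 - s) / 2 : ℂ) * (1 + I) = ((1 - s) * Real.pi : ℂ) * I / ((Real.pi : ℂ) * (1 + I)) := by
          rw [eq_div_iff pi_ne]
          linear_combination ((1 - s) / 2 * Real.pi : ℂ) * I_sq
        rw [e3, ← sub_div]
        congr 1
        ring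
  · intro ε hε
    obtain ⟨M, hM⟩ := ends h0 h1 hε
    refine ⟨max ((M + cst s) / Real.pi) ((M - cst s) / Real.pi), fun w hw hwI => ?_⟩
    obtain ⟨a, b⟩ := hM w hw hwI
    rw [sc_Y, sc_X]
    constructor
    · intro h
      have h2 : (G s w).re < -M := by
        have k := le_max_left ((M + cst s) / Real.pi) ((M - cst s) / Real.pi)
        have k2 : ((G s w).re - cst s) / Real.pi < -((M + cst s) / Real.pi) := by linarith
        rw [← neg_div, div_lt_div_iff_of_pos_right hpi] at k2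
        linarith
      rcases a h2 with c | c
      · exact Or.inl ⟨c.1, by rw [div_lt_iff₀ hpi]; exact c.2⟩
      · exact Or.inr ⟨c.1, by rw [lt_div_iff₀ hpi]; exact c.2⟩
    · intro h
      refine b ?_
      have k := le_max_right ((M + cst s) / Real.pi) ((M - cst s) / Real.pi)
      have k2 : (M - cst s) / Real.pi < ((G s w).re - cst s) / Real.pi := by linarith
      rw [div_lt_div_iff_of_pos_right hpi] at k2
      linarith
  · intro x hx
    have := (near_right h0 h1 hx).div_const Real.pi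
    rw [zero_div] at this
    refine this.congr fun w => ?_
    rw [sc_X]

end SM
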