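import Mathlib

/-!
# A proper local homeomorphism with one simple fibre is a bijection
-/

set_option autoImplicit false

noncomputable section

namespace SM

open Set Filter Topology

theorem bij_of_proper {D T : Set ℂ} {f : ℂ → ℂ} (hD : IsOpen D) (hT : IsPreconnected T)
    (hmaps : ∀ w ∈ D, f w ∈ T) (hd : ∀ w ∈ D, HasStrictDerivAt f (deriv f w) w ∧ deriv f w ≠ 0)
    (hprop : ∀ u : ℕ → ℂ, (∀ k, u k ∈ D) → ∀ ζ ∈ T, Tendsto (fun k => f (u k)) atTop (𝓝 ζ) →
      ∃ w ∈ D, ∃ φ : ℕ → ℕ, StrictMono φ ∧ Tendsto (fun k => u (φ k)) atTop (𝓝 w))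
    {w0 : ℂ} (hw0 : w0 ∈ D) (huniq : ∀ w ∈ D, f w = f w0 → w = w0) : BijOn f D T := by
  have : PreconnectedSpace T := Subtype.preconnectedSpace hT
  have hcont : ∀ w ∈ D, ContinuousAt f w := fun w hw => (hd w hw).1.hasDerivAt.continuousAt
  have hopen : ∀ w ∈ D, map f (𝓝 w) = 𝓝 (f w) := fun w hw => (hd w hw).1.map_nhds_eq (hd w hw).2
  -- image
  have himg : ∀ w ∈ D, ∀ N ∈ 𝓝 w, f '' (N ∩ D) ∈ 𝓝 (f w) := by
    intro w hw N hN
    rw [← hopen w hw]
    exact image_mem_map (inter_mem hN (hD.mem_nhds hw))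
  -- the set of values
  have h1 : {ζ : T | ∃ w ∈ D, f w = ζ} = univ := by
    have hcl : IsClopen {ζ : T | ∃ w ∈ D, f w = ζ} := by
      constructor
      · rw [← isSeqClosed_iff_isClosed]
        intro z ζ hz hlim
        choose u hu hu2 using hz
        have h2 : Tendsto (fun k => f (u k)) atTop (𝓝 (ζ : ℂ)) := by
          have h3 := (continuous_subtype_val.tendsto ζ).comp hlim
          refine h3.congr fun k => ?_
          exact (hu2 k).symm
        obtain ⟨w, hw, φ, hφ, hl⟩ := hprop u hu ζ ζ.2 h2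
        refine ⟨w, hw, ?_⟩
        have h4 : Tendsto (fun k => f (u (φ k))) atTop (𝓝 (f w)) := (hcont w hw).tendsto.comp hl
        exact tendsto_nhds_unique h4 (h2.comp hφ.tendsto_atTop)
      · rw [isOpen_iff_mem_nhds]
        rintro ζ ⟨w, hw, he⟩
        have h2 := himg w hw univ univ_mem
        rw [he] at h2
        have h3 : Subtype.val ⁻¹' (f '' (univ ∩ D)) ∈ 𝓝 ζ := continuous_subtype_val.continuousAt h2
        refine mem_of_superset h3 ?_
        rintro z ⟨w', hw', he'⟩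
        exact ⟨w', hw'.2, he'⟩
    rcases isClopen_iff.1 hcl with h | h
    · exfalso
      have : (⟨f w0, hmaps w0 hw0⟩ : T) ∈ {ζ : T | ∃ w ∈ D, f w = ζ} := ⟨w0, hw0, rfl⟩
      rw [h] at this
      exact this
    · exact h
  -- the set of double values
  have h2 : {ζ : T | ∃ w ∈ D, ∃ w' ∈ D, w ≠ w' ∧ f w = ζ ∧ f w' = ζ} = ∅ := by
    have hcl : IsClopen {ζ : T | ∃ w ∈ D, ∃ w' ∈ D, w ≠ w' ∧ f w = ζ ∧ f w' = ζ} := by
      constructor
      · rw [← isSeqClosed_iff_isClosed]
        intro z ζ hz hlim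
        choose u hu u' hu' hne he he' using hz
        have h3 := (continuous_subtype_val.tendsto ζ).comp hlim
        have h4 : Tendsto (fun k => f (u k)) atTop (𝓝 (ζ : ℂ)) := h3.congr fun k => (he k).symm
        obtain ⟨w, hw, φ, hφ, hl⟩ := hprop u hu ζ ζ.2 h4
        have h5 : Tendsto (fun k => f (u' (φ k))) atTop (𝓝 (ζ : ℂ)) :=
          (h3.comp hφ.tendsto_atTop).congr fun k => (he' (φ k)).symm
        obtain ⟨w', hw', ψ, hψ, hl'⟩ := hprop (fun k => u' (φ k)) (fun k => hu' _) ζ ζ.2 h5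
        have hl2 : Tendsto (fun k => u (φ (ψ k))) atTop (𝓝 w) := hl.comp hψ.tendsto_atTop
        have e1 : f w = ζ := tendsto_nhds_unique ((hcont w hw).tendsto.comp hl) (h4.comp hφ.tendsto_atTop)
        have e2 : f w' = ζ := tendsto_nhds_unique ((hcont w' hw').tendsto.comp hl') (h5.comp hψ.tendsto_atTop)
        refine ⟨w, hw, w', hw', ?_, e1, e2⟩
        intro hww
        subst hww
        -- local injectivity
        have hs := (hd w hw).1.hasStrictFDerivAt_equiv (hd w hw).2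
        have hN := (hs.toOpenPartialHomeomorph f).open_source.mem_nhds hs.mem_toOpenPartialHomeomorph_source
        have hinj := (hs.toOpenPartialHomeomorph f).injOn
        have k1 := hl2.eventually hN
        have k2 := hl'.eventually hN
        obtain ⟨k, hk1, hk2⟩ := (k1.and k2).exists
        have h6 : f (u (φ (ψ k))) = f (u' (φ (ψ k))) := (he _).trans (he' _).symm
        have h7 := hinj hk1 hk2 (by
          rw [hs.toOpenPartialHomeomorph_coe]
          exact h6)
        exact hne _ h7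
      · rw [isOpen_iff_mem_nhds]
        rintro ζ ⟨w, hw, w', hw', hne, he, he'⟩
        obtain ⟨N, N', hN, hN', hdis⟩ := t2_separation_nhds hne
        have h3 := himg w hw N hN
        have h4 := himg w' hw' N' hN'
        rw [he] at h3
        rw [he'] at h4
        have h5 : Subtype.val ⁻¹' (f '' (N ∩ D) ∩ f '' (N' ∩ D)) ∈ 𝓝 ζ :=
          continuous_subtype_val.continuousAt (inter_mem h3 h4)
        refine mem_of_superset h5 ?_
        rintro z ⟨⟨v, hv, hve⟩, ⟨v', hv', hve'⟩⟩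
        exact ⟨v, hv.2, v', hv'.2, fun h => (Set.disjoint_left.1 hdis) hv.1 (h ▸ hv'.1), hve, hve'⟩
    rcases isClopen_iff.1 hcl with h | h
    · exact h
    · exfalso
      have : (⟨f w0, hmaps w0 hw0⟩ : T) ∈ {ζ : T | ∃ w ∈ D, ∃ w' ∈ D, w ≠ w' ∧ f w = ζ ∧ f w' = ζ} := by
        rw [h]; exact mem_univ _
      obtain ⟨w, hw, w', hw', hne, he, he'⟩ := this
      exact hne ((huniq w hw he).trans (huniq w' hw' he').symm)
  refine ⟨fun w hw => hmaps w hw, ?_, ?_⟩
  · intro w hw w' hw' he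
    by_contra hne
    have : (⟨f w, hmaps w hw⟩ : T) ∈ {ζ : T | ∃ w ∈ D, ∃ w' ∈ D, w ≠ w' ∧ f w = ζ ∧ f w' = ζ} :=
      ⟨w, hw, w', hw', hne, rfl, he.symm⟩
    rw [h2] at this
    exact this
  · intro ζ hζ
    have : (⟨ζ, hζ⟩ : T) ∈ {ζ : T | ∃ w ∈ D, f w = ζ} := by rw [h1]; exact mem_univ _
    obtain ⟨w, hw, he⟩ := this
    exact ⟨w, hw, he⟩

end SM
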