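import Pool.Agent.Lib.MP_216314_pr.SM.P
import Pool.Agent.Lib.MP_216314_pr.SM.Top

/-!
# Limit points
-/

set_option autoImplicit false

noncomputable section

namespace SM

open Complex Topology Filter Bornology

theorem limit_cases {s : ℝ} (h0 : 0 < s) (h1 : s < 1) {u : ℕ → ℂ} (hu : ∀ k, 0 < (u k).im ∧ u k ≠ I) {w ζ : ℂ}
    (hw : Tendsto u atTop (𝓝 w)) (hζ : Tendsto (fun k => G s (u k)) atTop (𝓝 ζ)) :
    (w ∈ DD s ∧ G s w = ζ) ∨ (w ∈ Ga s ∧ (G s w = ζ ∨ gt s w = ζ)) ∨ ζ.im = 0 ∨ (ζ.im = s * Real.pi ∧ ζ.re ≤ cst s) ∨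
      (ζ.im = Real.pi ∧ cst s ≤ ζ.re) := by
  have hs := Real.sqrt_pos.2 h0
  have hk := w1_gt h0 h1
  have hre : Tendsto (fun k => (gt s (u k)).re) atTop (𝓝 ζ.re) := by
    have := (continuous_re.tendsto ζ).comp hζ
    refine this.congr fun k => ?_
    simp only [Function.comp]
    rw [G_re]
  have hwI : w ≠ I := by
    rintro rfl
    have h2 : Tendsto u atTop (𝓝[≠] I) := tendsto_nhdsWithin_iff.2 ⟨hw, Eventually.of_forall fun k => (hu k).2⟩
    exact not_tendsto_nhds_of_tendsto_atBot ((gt_re_I h1).comp h2) _ hre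
  have hww : w ≠ (w1 s : ℂ) := by
    rintro rfl
    have h2 : Tendsto u atTop (𝓝[≠] (w1 s : ℂ)) := by
      refine tendsto_nhdsWithin_iff.2 ⟨hw, Eventually.of_forall fun k => ?_⟩
      intro h
      have h3 := (hu k).1
      rw [Set.mem_singleton_iff.1 h, ofReal_im] at h3
      exact lt_irrefl _ h3
    exact not_tendsto_nhds_of_tendsto_atBot ((gt_re_w1 h0).comp h2) _ hre
  have him : 0 ≤ w.im := ge_of_tendsto' ((continuous_im.tendsto w).comp hw) fun k => (hu k).1.le
  have hcl : IsClosed ({0, ((1 - s) * Real.pi : ℂ) * I} : Set ℂ) := (Set.toFinite _).isClosed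
  rcases eq_or_lt_of_le him with h | h
  · -- the real line
    have hx : w = ((w.re : ℝ) : ℂ) := by
      apply Complex.ext <;> simp [← h]
    have hxw : w.re ≠ w1 s := by
      intro h3
      exact hww (by rw [hx, h3])
    have hcu : ContinuousAt (gu s) w := by
      refine (hasStrictDerivAt_gu h0.le h1 (by linarith) (by linarith) (Or.inl hxw)).hasDerivAt.continuousAt
    have hev : ∀ᶠ k in atTop, gt s (u k) = gu s (u k) := by
      filter_upwards [((continuous_im.tendsto w).comp hw).eventually (gt_mem_nhds (show w.im < 1 by linarith))] with k hk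
      exact gt_eq_gu s (hu k).1 hk
    have hev1 : ∀ᶠ k in atTop, (u k).im < 1 :=
      ((continuous_im.tendsto w).comp hw).eventually (gt_mem_nhds (show w.im < 1 by linarith))
    have hgu : Tendsto (fun k => gu s (u k)) atTop (𝓝 (gu s w)) := hcu.tendsto.comp hw
    rcases lt_trichotomy w.re (Real.sqrt s) with k | k | k
    · right; right; right; right
      have e1 : ∀ᶠ k in atTop, G s (u k) = gu s (u k) + ((1 - s) * Real.pi : ℂ) * I := by
        have hn := near_real h0 h1 (lt_trans k hk) (ne_of_lt k)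
        rw [← hx] at hn
        filter_upwards [hev, hev1, hw.eventually hn, ((continuous_re.tendsto w).comp hw).eventually (gt_mem_nhds k)]
          with j j1 j2 j3 j4
        rw [G_of_mem ⟨j2, j4, ?_⟩, j1]
        rw [j1]
        exact (j3.1 (hu j).1).le
      have e2 : Tendsto (fun k => G s (u k)) atTop (𝓝 (gu s w + ((1 - s) * Real.pi : ℂ) * I)) := by
        refine Tendsto.congr' ?_ (hgu.add_const _)
        filter_upwards [e1] with j hj
        exact hj.symm
      have e3 := tendsto_nhds_unique hζ e2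
      rw [e3, hx]
      constructor
      · rw [add_im, gu_real_lt (lt_trans k hk)]
        simp
        ring
      · rw [add_re]
        have := gu_left h0 h1 k.le
        simpa using this
    · have e3 : ζ - gu s w ∈ ({0, ((1 - s) * Real.pi : ℂ) * I} : Set ℂ) := by
        refine hcl.mem_of_tendsto (hζ.sub hgu) ?_
        filter_upwards [hev] with j hj
        rw [← hj]
        exact G_cases s (u j)
      rw [hx, k, gu_tip h0 h1] at e3
      rcases e3 with e3 | e3
      · right; right; right; left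
        rw [sub_eq_zero.1 e3]
        simp
      · right; right; right; right
        rw [sub_eq_iff_eq_add.1 (Set.mem_singleton_iff.1 e3)]
        simp
        ring
    · have e1 : ∀ᶠ k in atTop, G s (u k) = gu s (u k) := by
        filter_upwards [hev, ((continuous_re.tendsto w).comp hw).eventually (lt_mem_nhds k)] with j j1 j2
        rw [G_of_not (fun h => absurd h.2.1 (not_lt.2 (le_of_lt j2))), j1]
      have e2 : Tendsto (fun k => G s (u k)) atTop (𝓝 (gu s w)) := by
        refine Tendsto.congr' ?_ hgu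
        filter_upwards [e1] with j hj
        exact hj.symm
      have e3 := tendsto_nhds_unique hζ e2
      rcases lt_or_gt_of_ne hxw with k2 | k2
      · right; right; right; left
        rw [e3, hx]
        exact ⟨gu_real_lt k2, gu_right h0 h1 k.le k2⟩
      · right; right; left
        rw [e3, hx]
        exact gu_real_gt k2
  · by_cases hG : w ∈ Ga s
    · right; left
      refine ⟨hG, ?_⟩
      have hc : ContinuousAt (gt s) w := (hasStrictDerivAt_gt h0.le h1 h (Or.inl hG.2.1.ne)).hasDerivAt.continuousAt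
      have e3 : ζ - gt s w ∈ ({0, ((1 - s) * Real.pi : ℂ) * I} : Set ℂ) := by
        refine hcl.mem_of_tendsto (hζ.sub (hc.tendsto.comp hw)) (Eventually.of_forall fun j => ?_)
        exact G_cases s (u j)
      rcases e3 with e3 | e3
      · right
        exact (sub_eq_zero.1 e3).symm
      · left
        rw [sub_eq_iff_eq_add.1 (Set.mem_singleton_iff.1 e3), G_of_mem (Ga_UU hG)]
        ring
    · left
      have hD : w ∈ DD s := ⟨h, hwI, hG⟩
      refine ⟨hD, ?_⟩
      exact (tendsto_nhds_unique hζ ((hasStrictDerivAt_G h0 h1 hD).hasDerivAt.continuousAt.tendsto.comp hw)).symm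

theorem subseq {s : ℝ} (h0 : 0 < s) (h1 : s < 1) {u : ℕ → ℂ} {ζ : ℂ} (hζ : Tendsto (fun k => G s (u k)) atTop (𝓝 ζ)) :
    ∃ w : ℂ, ∃ φ : ℕ → ℕ, StrictMono φ ∧ Tendsto (fun k => u (φ k)) atTop (𝓝 w) := by
  have hre : Tendsto (fun k => (gt s (u k)).re) atTop (𝓝 ζ.re) := by
    have := (continuous_re.tendsto ζ).comp hζ
    refine this.congr fun k => ?_
    simp only [Function.comp]
    rw [G_re]
  have hb : IsBounded {w : ℂ | ¬ (ζ.re + 1 < (gt s w).re)} := by
    have := (gt_re_cob h0 h1).eventually (eventually_gt_atTop (ζ.re + 1))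
    rw [isBounded_def]
    filter_upwards [this] with w hw
    simpa using hw
  obtain ⟨w, -, φ, hφ, hl⟩ := tendsto_subseq_of_frequently_bounded hb (x := u)
    ((hre.eventually (gt_mem_nhds (lt_add_one ζ.re))).mono fun k hk => not_lt.2 hk.le).frequently
  exact ⟨w, φ, hφ, hl⟩

/-- the open part of the image -/
def TT (s : ℝ) : Set ℂ := {z | 0 < z.im ∧ z.im < Real.pi ∧ ¬ (z.im = s * Real.pi ∧ z.re ≤ cst s)}

theorem isOpen_TT (s : ℝ) : IsOpen (TT s) := by
  have h1 : IsOpen {z : ℂ | 0 < z.im} := isOpen_lt continuous_const continuous_im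
  have h2 : IsOpen {z : ℂ | z.im < Real.pi} := isOpen_lt continuous_im continuous_const
  have h3 : IsClosed {z : ℂ | z.im = s * Real.pi ∧ z.re ≤ cst s} :=
    (isClosed_eq continuous_im continuous_const).inter (isClosed_le continuous_re continuous_const)
  exact h1.inter (h2.inter h3.isOpen_compl)

theorem preconn_TT {s : ℝ} (h0 : 0 < s) (h1 : s < 1) : IsPreconnected (TT s) := by
  have hpi := Real.pi_pos
  have hsp : 0 < s * Real.pi := mul_pos h0 hpi
  have hsp1 : s * Real.pi < Real.pi := by nlinarith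
  have cv : ∀ a b : ℝ, Convex ℝ {z : ℂ | a < z.im ∧ z.im < b} := fun a b =>
    (convex_halfSpace_im_gt a).inter (convex_halfSpace_im_lt b)
  have hA : IsPreconnected {z : ℂ | 0 < z.im ∧ z.im < s * Real.pi} := (cv _ _).isPreconnected
  have hB : IsPreconnected {z : ℂ | s * Real.pi < z.im ∧ z.im < Real.pi} := (cv _ _).isPreconnected
  have hC : IsPreconnected ({z : ℂ | 0 < z.im ∧ z.im < Real.pi} ∩ {z : ℂ | cst s < z.re}) :=
    ((cv _ _).inter (convex_halfSpace_re_gt (cst s))).isPreconnected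
  have h2 : TT s = ({z : ℂ | 0 < z.im ∧ z.im < s * Real.pi} ∪
      ({z : ℂ | 0 < z.im ∧ z.im < Real.pi} ∩ {z : ℂ | cst s < z.re})) ∪ {z : ℂ | s * Real.pi < z.im ∧ z.im < Real.pi} := by
    ext z
    constructor
    · rintro ⟨z1, z2, z3⟩
      rcases lt_trichotomy z.im (s * Real.pi) with h | h | h
      · exact Or.inl (Or.inl ⟨z1, h⟩)
      · refine Or.inl (Or.inr ⟨⟨z1, z2⟩, ?_⟩)
        by_contra h3
        exact z3 ⟨h, not_lt.1 h3⟩
      · exact Or.inr ⟨h, z2⟩
    · rintro ((⟨z1, z2⟩ | ⟨⟨z1, z2⟩, z3⟩) | ⟨z1, z2⟩)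
      · exact ⟨z1, lt_trans z2 hsp1, fun h => absurd h.1 z2.ne⟩
      · exact ⟨z1, z2, fun h => absurd h.2 (not_le.2 z3)⟩
      · exact ⟨lt_trans hsp z1, z2, fun h => absurd h.1 z1.ne'⟩
  rw [h2]
  refine IsPreconnected.union (((cst s + 1 : ℝ) : ℂ) + ((s * Real.pi + Real.pi) / 2 : ℝ) * I) (Or.inr ⟨⟨?_, ?_⟩, ?_⟩) ⟨?_, ?_⟩
    (IsPreconnected.union (((cst s + 1 : ℝ) : ℂ) + (s * Real.pi / 2 : ℝ) * I) ⟨?_, ?_⟩ ⟨⟨?_, ?_⟩, ?_⟩ hA hC) hB
  all_goals simp
  all_goals nlinarith

end SM
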