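import Pool.Agent.Lib.MP_216314_pr.SM.M

/-!
# A simple fibre and the bijection off the glued curve
-/

set_option autoImplicit false

noncomputable section

namespace SM

open Complex Topology Filter Bornology

theorem inj_up {s : ℝ} (h0 : 0 < s) (h1 : s < 1) {w w' : ℂ} (hw : 1 < w.im) (hw' : 1 < w'.im) (he : gt s w = gt s w') :
    w = w' := by
  by_contra hne
  have hz : w' - w ≠ 0 := sub_ne_zero.2 (Ne.symm hne)
  have hin : ∀ t : ℝ, 0 ≤ t → t ≤ 1 → 1 < (w + t * (w' - w)).im := by
    intro t ht ht1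
    have : (w + t * (w' - w)).im = (1 - t) * w.im + t * w'.im := by
      rw [add_im, im_ofReal_mul, sub_im]; ring
    rw [this]
    rcases eq_or_lt_of_le ht with h | h
    · rw [← h]; linarith
    · have k1 : 0 ≤ (1 - t) * (w.im - 1) := mul_nonneg (by linarith) (by linarith)
      have k2 : 0 < t * (w'.im - 1) := mul_pos h (by linarith)
      linarith
  have hd : ∀ t : ℝ, 0 ≤ t → t ≤ 1 → HasDerivAt (fun t : ℝ => ((w' - w)⁻¹ * gt s (w + t * (w' - w))).im)
      ((w' - w)⁻¹ * (gp s (w + t * (w' - w)) * (w' - w))).im t := by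
    intro t ht ht1
    have h3 := hin t ht ht1
    exact im_deriv ((seg_deriv (hasStrictDerivAt_gt h0.le h1 (by linarith) (Or.inl h3.ne')).hasDerivAt).const_mul _)
  have hm : StrictAntiOn (fun t : ℝ => ((w' - w)⁻¹ * gt s (w + t * (w' - w))).im) (Set.Icc 0 1) := by
    refine strictAntiOn_of_deriv_neg (convex_Icc _ _) ?_ ?_
    · intro t ht
      exact (hd t ht.1 ht.2).continuousAt.continuousWithinAt
    · intro t ht
      rw [interior_Icc] at ht
      rw [(hd t ht.1.le ht.2.le).deriv]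
      have e : (w' - w)⁻¹ * (gp s (w + t * (w' - w)) * (w' - w)) = gp s (w + t * (w' - w)) := by
        field_simp
      rw [e]
      have h3 := hin t ht.1.le ht.2.le
      refine gp_im_neg h0 h1 h3.le ?_
      intro h4
      rw [h4] at h3
      simp at h3
  have := hm (Set.left_mem_Icc.2 zero_le_one) (Set.right_mem_Icc.2 zero_le_one) one_pos
  simp only [ofReal_zero, zero_mul, add_zero, ofReal_one, one_mul, add_sub_cancel] at this
  rw [he] at this
  exact lt_irrefl _ this

theorem arg_lower {z : ℂ} (hre : z.re < 0) (him : 0 ≤ z.im) : Real.pi - Real.pi / 2 * (z.im / ‖z‖) ≤ arg z := by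
  have hz : z ≠ 0 := by
    rintro rfl
    simp at hre
  have hn : 0 < ‖z‖ := norm_pos_iff.2 hz
  rw [arg_of_re_neg_of_im_nonneg hre him, neg_im, neg_div, Real.arcsin_neg]
  have t0 : 0 ≤ z.im / ‖z‖ := div_nonneg him hn.le
  have t1 : z.im / ‖z‖ ≤ 1 := by
    rw [div_le_one hn]
    exact le_trans (le_abs_self _) (abs_im_le_norm z)
  have hpi := Real.pi_pos
  have h2 : Real.arcsin (z.im / ‖z‖) ≤ Real.pi / 2 * (z.im / ‖z‖) := by
    rw [Real.arcsin_le_iff_le_sin ⟨by linarith, t1⟩ ⟨by nlinarith, by nlinarith⟩]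
    have := Real.mul_le_sin (x := Real.pi / 2 * (z.im / ‖z‖)) (by positivity) (by nlinarith)
    have e : 2 / Real.pi * (Real.pi / 2 * (z.im / ‖z‖)) = z.im / ‖z‖ := by
      field_simp
    rwa [e] at this
  linarith

theorem gt_re_le {s : ℝ} (h0 : 0 < s) (h1 : s < 1) (w : ℂ) : (gt s w).re ≤ ‖w‖ + w1 s + 1 := by
  rw [gt_re]
  have hw1 : 0 < w1 s := lt_trans (Real.sqrt_pos.2 h0) (w1_gt h0 h1)
  have a1 : Real.log ‖w - (w1 s : ℂ)‖ ≤ ‖w‖ + w1 s := by
    refine le_trans (Real.log_le_self (norm_nonneg _)) (le_trans (norm_sub_le _ _) ?_)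
    rw [norm_real, Real.norm_of_nonneg hw1.le]
  have a2 : Real.log ‖w - I‖ ≤ ‖w‖ + 1 := by
    refine le_trans (Real.log_le_self (norm_nonneg _)) (le_trans (norm_sub_le _ _) ?_)
    rw [norm_I]
  have a3 : Real.log ‖w + I‖ ≤ ‖w‖ + 1 := by
    refine le_trans (Real.log_le_self (norm_nonneg _)) (le_trans (norm_add_le _ _) ?_)
    rw [norm_I]
  nlinarith

theorem G_gv {s : ℝ} (h0 : 0 < s) (h1 : s < 1) {w : ℂ} (hw0 : 0 < w.im) (hr : w.re < 0) : G s w = gv s w := by
  by_cases h : w.im < 1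
  · rw [gv_eq' s hr h, G_of_mem ⟨h, lt_trans hr (Real.sqrt_pos.2 h0), (gt_im_left h0 h1 hw0 h hr.le).le⟩]
  · push Not at h
    rw [gv_eq s hr h, G_of_not (fun h2 => absurd h2.1 (not_lt.2 h))]

theorem gv_im (s : ℝ) (w : ℂ) : (gv s w).im = s * arg (w - (w1 s : ℂ)) +
    (1 - s) / 2 * (arg (-(w - I)) + Real.pi + arg (w + I)) := by
  rw [gv, half_cast, add_im, im_ofReal_mul, im_ofReal_mul, add_im, add_im, log_im, log_im, log_im]
  simp

theorem exists_uniq {s : ℝ} (h0 : 0 < s) (h1 : s < 1) :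
    ∃ w0 ∈ DD s, G s w0 ∈ TT s ∧ ∀ w ∈ DD s, G s w = G s w0 → w = w0 := by
  have hpi := Real.pi_pos
  have hw1 : 0 < w1 s := lt_trans (Real.sqrt_pos.2 h0) (w1_gt h0 h1)
  have h1s : 0 < 1 - s := by linarith
  have hc : Tendsto (fun K : ℝ => (K : ℂ) * I) atTop (cobounded ℂ) := by
    rw [← tendsto_norm_atTop_iff_cobounded]
    have : (fun K : ℝ => ‖(K : ℂ) * I‖) = fun K => |K| := by
      funext K
      rw [norm_mul, norm_I, mul_one, norm_real, Real.norm_eq_abs]
    rw [this]
    exact tendsto_abs_atTop_atTop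
  have h2 := ((gt_re_cob h0 h1).comp hc).eventually (eventually_gt_atTop (max (cst s) (2 * w1 s + 2 / (1 - s) + 10)))
  obtain ⟨K, hK, hK2⟩ := (h2.and (eventually_ge_atTop 2)).exists
  simp only [Function.comp] at hK
  have hK3 : cst s < (gt s ((K : ℂ) * I)).re := lt_of_le_of_lt (le_max_left _ _) hK
  have hK4 : 2 * w1 s + 2 / (1 - s) + 10 < (gt s ((K : ℂ) * I)).re := lt_of_le_of_lt (le_max_right _ _) hK
  have him : ((K : ℂ) * I).im = K := by simp
  have hD : (K : ℂ) * I ∈ DD s := by
    refine ⟨by rw [him]; linarith, fun h => ?_, fun h => ?_⟩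
    · have := congrArg Complex.im h
      rw [him, I_im] at this
      linarith
    · have := h.2.1
      rw [him] at this
      linarith
  have hGK : G s ((K : ℂ) * I) = gt s ((K : ℂ) * I) := G_of_not (fun h => by
    have := h.1
    rw [him] at this
    linarith)
  have hGi := G_im h0 h1 hD
  -- the imaginary part at the point
  have b1 : arg ((K : ℂ) * I - I) = Real.pi / 2 := by
    have : (K : ℂ) * I - I = ((K - 1 : ℝ) : ℂ) * I := by push_cast; ring
    rw [this, arg_real_mul _ (by linarith), arg_I]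
  have b2 : arg ((K : ℂ) * I + I) = Real.pi / 2 := by
    have : (K : ℂ) * I + I = ((K + 1 : ℝ) : ℂ) * I := by push_cast; ring
    rw [this, arg_real_mul _ (by linarith), arg_I]
  have b3 : Real.pi / 2 ≤ arg ((K : ℂ) * I - (w1 s : ℂ)) := by
    by_contra h
    push Not at h
    have h3 := arg_pos_lt (z := (K : ℂ) * I - (w1 s : ℂ)) (by simp; linarith)
    have h4 : |arg ((K : ℂ) * I - (w1 s : ℂ))| < Real.pi / 2 := by
      rw [abs_of_pos h3.1]; exact h
    rw [abs_arg_lt_pi_div_two_iff] at h4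
    rcases h4 with h4 | h4
    · simp at h4
      linarith
    · rw [h4] at h3
      simp at h3
  have b4 := (arg_pos_lt (z := (K : ℂ) * I - (w1 s : ℂ)) (by simp; linarith)).2
  have hlow : Real.pi / 2 ≤ (gt s ((K : ℂ) * I)).im := by
    rw [gt_im, b1, b2]
    nlinarith
  have hupp : (gt s ((K : ℂ) * I)).im ≤ Real.pi * (1 + s) / 2 := by
    rw [gt_im, b1, b2]
    nlinarith
  refine ⟨(K : ℂ) * I, hD, ⟨hGi.1, hGi.2, ?_⟩, ?_⟩
  · rintro ⟨-, h⟩
    rw [hGK] at h
    linarith
  · intro w hw he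
    rw [hGK] at he
    have hre : (gt s w).re = (gt s ((K : ℂ) * I)).re := by
      rw [← he, G_re]
    have hn : w1 s + 2 / (1 - s) + 9 < ‖w‖ := by
      have := gt_re_le h0 h1 w
      linarith
    have h2s : 0 < 2 / (1 - s) := by positivity
    by_cases hi : 1 < w.im
    · refine inj_up h0 h1 hi (by rw [him]; linarith) ?_
      rw [← he]
      exact (G_of_not (fun h => absurd h.1 (not_lt.2 hi.le))).symm
    · exfalso
      push Not at hi
      have hw0 := hw.1
      have hr : w1 s + 2 / (1 - s) + 8 < |w.re| := by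
        have := norm_le_abs_re_add_abs_im w
        rw [abs_of_pos hw0] at this
        linarith
      rcases le_or_gt 0 w.re with k | k
      · rw [abs_of_nonneg k] at hr
        have hU : w ∉ UU s := fun h => by
          have := h.2.1
          have h5 := w1_gt h0 h1
          linarith
        rw [G_of_not hU] at he
        have c1 := (abs_lt.1 (abs_arg_lt_pi_div_two_iff.2 (Or.inl (show 0 < (w - (w1 s : ℂ)).re by simp; linarith)))).2
        have c2 := (abs_lt.1 (abs_arg_lt_pi_div_two_iff.2 (Or.inl (show 0 < (w - I).re by simp; linarith)))).2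
        have c3 := (abs_lt.1 (abs_arg_lt_pi_div_two_iff.2 (Or.inl (show 0 < (w + I).re by simp; linarith)))).2
        rw [← he, gt_im] at hlow
        nlinarith
      · rw [abs_of_neg k] at hr
        rw [G_gv h0 h1 hw0 k] at he
        rw [← he, gv_im] at hupp
        have d1 : 0 ≤ arg (-(w - I)) := arg_nonneg_iff.2 (by simp; linarith)
        have hR : 0 < 2 / (1 - s) := by positivity
        have n2 : 2 / (1 - s) ≤ ‖w - (w1 s : ℂ)‖ := by
          have := abs_re_le_norm (w - (w1 s : ℂ))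
          rw [sub_re, ofReal_re, abs_of_neg (by linarith)] at this
          linarith
        have n3 : 2 / (1 - s) ≤ ‖w + I‖ := by
          have := abs_re_le_norm (w + I)
          rw [add_re, I_re, add_zero, abs_of_neg k] at this
          linarith
        have d2 := arg_lower (z := w - (w1 s : ℂ)) (by simp; linarith) (by simp; linarith)
        have d3 := arg_lower (z := w + I) (by simp; linarith) (by simp; linarith)
        have e2 : (w - (w1 s : ℂ)).im / ‖w - (w1 s : ℂ)‖ ≤ (1 - s) / 2 := by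
          rw [div_le_iff₀ (by linarith)]
          have : (1 - s) / 2 * (2 / (1 - s)) = 1 := by field_simp
          have i2 : (w - (w1 s : ℂ)).im = w.im := by simp
          rw [i2]
          nlinarith
        have e3 : (w + I).im / ‖w + I‖ ≤ (1 - s) := by
          rw [div_le_iff₀ (by linarith)]
          have : (1 - s) * (2 / (1 - s)) = 2 := by field_simp
          have i3 : (w + I).im = w.im + 1 := by simp
          rw [i3]
          nlinarith
        have f2 : Real.pi - Real.pi / 2 * ((1 - s) / 2) ≤ arg (w - (w1 s : ℂ)) := by nlinarith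
        have f3 : Real.pi - Real.pi / 2 * (1 - s) ≤ arg (w + I) := by nlinarith
        have g2 : s * (Real.pi - Real.pi / 2 * ((1 - s) / 2)) ≤ s * arg (w - (w1 s : ℂ)) :=
          mul_le_mul_of_nonneg_left f2 h0.le
        have g3 : (1 - s) / 2 * (0 + Real.pi + (Real.pi - Real.pi / 2 * (1 - s))) ≤
            (1 - s) / 2 * (arg (-(w - I)) + Real.pi + arg (w + I)) :=
          mul_le_mul_of_nonneg_left (by linarith) (by linarith)
        have g4 : s * (Real.pi - Real.pi / 2 * ((1 - s) / 2)) + (1 - s) / 2 * (0 + Real.pi + (Real.pi - Real.pi / 2 * (1 - s))) =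
            Real.pi - Real.pi * (1 - s) / 4 := by ring
        have g5 : 0 < Real.pi * (1 - s) := mul_pos hpi h1s
        linarith

theorem bij1 {s : ℝ} (h0 : 0 < s) (h1 : s < 1) : Set.BijOn (G s) (DD s ∩ G s ⁻¹' TT s) (TT s) := by
  obtain ⟨w0, hw0, hw0T, huniq⟩ := exists_uniq h0 h1
  have hder : ∀ w ∈ DD s, deriv (G s) w = gp s w := fun w hw => (hasStrictDerivAt_G h0 h1 hw).hasDerivAt.deriv
  refine bij_of_proper ?_ (preconn_TT h0 h1) (fun w hw => hw.2) ?_ ?_ (w0 := w0) ⟨hw0, hw0T⟩ (fun w hw he => huniq w hw.1 he)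
  · rw [isOpen_iff_mem_nhds]
    intro w hw
    exact inter_mem ((isOpen_DD h0 h1).mem_nhds hw.1)
      ((hasStrictDerivAt_G h0 h1 hw.1).hasDerivAt.continuousAt ((isOpen_TT s).mem_nhds hw.2))
  · intro w hw
    rw [hder w hw.1]
    exact ⟨hasStrictDerivAt_G h0 h1 hw.1, gp_ne_of_im hw.1.1 hw.1.2.1⟩
  · intro u hu ζ hζ hlim
    obtain ⟨w, φ, hφ, hl⟩ := subseq h0 h1 hlim
    have hlim2 : Tendsto (fun k => G s (u (φ k))) atTop (𝓝 ζ) := hlim.comp hφ.tendsto_atTop
    rcases limit_cases h0 h1 (fun k => ⟨(hu (φ k)).1.1, (hu (φ k)).1.2.1⟩) hl hlim2 with h | h | h | h | h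
    · exact ⟨w, ⟨h.1, by rw [Set.mem_preimage, h.2]; exact hζ⟩, φ, hφ, hl⟩
    · exfalso
      rcases h.2 with k | k
      · have := (G_Ga h0 h1 h.1).1
        rw [k] at this
        exact absurd this hζ.2.1.ne
      · refine hζ.2.2 ?_
        rw [← k]
        exact ⟨h.1.2.2.2, (Ga_lt h0 h1 h.1).le⟩
    · exact absurd h hζ.1.ne'
    · exact absurd h hζ.2.2
    · exact absurd h.1 hζ.2.1.ne

end SM
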