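import Pool.Agent.Lib.MP_216314_pr.SM.N

/-!
# The bijection of the upper half plane without `i`
-/

set_option autoImplicit false

noncomputable section

namespace SM

open Complex Topology Filter Bornology

theorem gu_re (s : ℝ) {w : ℂ} (n2 : w ≠ I) (n3 : w ≠ -I) : (gu s w).re = (gt s w).re := by
  have m2 : w - I ≠ 0 := sub_ne_zero.2 n2
  have m3 : w + I ≠ 0 := by
    intro h
    exact n3 (eq_neg_of_add_eq_zero_left h)
  have e : w ^ 2 + 1 = (w - I) * (w + I) := by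
    ring_nf
    rw [I_sq]
    ring
  rw [gt_re, gu, half_cast, add_re, re_ofReal_mul, re_ofReal_mul, add_re, log_re, log_re, e, norm_mul, norm_mul, norm_neg,
    norm_I, one_mul, Real.log_mul (norm_ne_zero_iff.2 m2) (norm_ne_zero_iff.2 m3)]
  simp

theorem real_ne_I (x : ℝ) : (x : ℂ) ≠ I := by
  intro h
  have := congrArg Complex.im h
  simp at this

theorem real_ne_neg_I (x : ℝ) : (x : ℂ) ≠ -I := by
  intro h
  have := congrArg Complex.im h
  simp at this

theorem gu_w1 {s : ℝ} (h0 : 0 < s) : Tendsto (fun x : ℝ => (gu s (x : ℂ)).re) (𝓝[<] (w1 s)) atBot := by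
  have h : Tendsto (fun x : ℝ => (x : ℂ)) (𝓝[<] (w1 s)) (𝓝[≠] (w1 s : ℂ)) := by
    refine tendsto_nhdsWithin_iff.2 ⟨(continuous_ofReal.tendsto (w1 s)).mono_left nhdsWithin_le_nhds, ?_⟩
    filter_upwards [self_mem_nhdsWithin] with x hx
    intro h
    have := ofReal_injective (Set.mem_singleton_iff.1 h)
    exact absurd this (ne_of_lt hx)
  refine ((gt_re_w1 h0).comp h).congr fun x => ?_
  exact (gu_re s (real_ne_I x) (real_ne_neg_I x)).symm

/-- every value of the slit is attained at the real line -/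
theorem slit_real {s r : ℝ} (h0 : 0 < s) (h1 : s < 1) (hr : r < cst s) :
    ∃ x : ℝ, Real.sqrt s < x ∧ x < w1 s ∧ (gu s (x : ℂ)).re = r := by
  have hk := w1_gt h0 h1
  have h3 : ∀ᶠ x in 𝓝[<] (w1 s), Real.sqrt s < x := nhdsWithin_le_nhds (lt_mem_nhds hk)
  have h3' : ∀ᶠ x in 𝓝[<] (w1 s), x < w1 s := self_mem_nhdsWithin
  have h2 := ((gu_w1 h0).eventually (eventually_lt_atBot r)).and (h3.and h3')
  obtain ⟨x1, hx1, hx2, hx3⟩ := h2.exists
  have hx3' : x1 < w1 s := hx3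
  have hc : ContinuousOn (fun x : ℝ => (gu s (x : ℂ)).re) (Set.Icc (Real.sqrt s) x1) := by
    intro x hx
    exact (gu_real_deriv h0 h1 (ne_of_lt (lt_of_le_of_lt hx.2 hx3'))).continuousAt.continuousWithinAt
  have h4 := intermediate_value_Icc' (le_of_lt hx2) hc
  obtain ⟨x, hx, he⟩ := h4 (show r ∈ Set.Icc ((gu s (x1 : ℂ)).re) ((gu s (Real.sqrt s : ℂ)).re) from
    ⟨hx1.le, by rw [gu_tip_re h0 h1]; exact hr.le⟩)
  refine ⟨x, lt_of_le_of_ne hx.1 ?_, lt_of_le_of_lt hx.2 hx3', he⟩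
  intro h
  simp only at he
  rw [← h, gu_tip_re h0 h1] at he
  linarith

theorem down (ζ : ℂ) : Tendsto (fun ε : ℝ => ζ - ε * I) (𝓝[>] 0) (𝓝 ζ) := by
  have : Tendsto (fun ε : ℝ => ζ - ε * I) (𝓝 0) (𝓝 (ζ - (0 : ℝ) * I)) := by
    refine Continuous.tendsto ?_ 0
    fun_prop
  simp only [ofReal_zero, zero_mul, sub_zero] at this
  exact this.mono_left nhdsWithin_le_nhds

theorem left (ζ : ℂ) : Tendsto (fun ε : ℝ => ζ - ε) (𝓝[>] 0) (𝓝 ζ) := by
  have : Tendsto (fun ε : ℝ => ζ - ε) (𝓝 0) (𝓝 (ζ - (0 : ℝ))) := by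
    refine Continuous.tendsto ?_ 0
    fun_prop
  simp only [ofReal_zero, sub_zero] at this
  exact this.mono_left nhdsWithin_le_nhds

theorem no_slit {s : ℝ} (h0 : 0 < s) (h1 : s < 1) {w : ℂ} (hw : w ∈ DD s) :
    ¬ ((G s w).im = s * Real.pi ∧ (G s w).re ≤ cst s) := by
  rintro ⟨hi, hr⟩
  have hpi := Real.pi_pos
  have hsp : 0 < s * Real.pi := mul_pos h0 hpi
  have hsp1 : s * Real.pi < Real.pi := by nlinarith
  have hopen : ∀ v ∈ DD s, ∀ N ∈ 𝓝 v, G s '' N ∈ 𝓝 (G s v) := by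
    intro v hv N hN
    rw [← (hasStrictDerivAt_G h0 h1 hv).map_nhds_eq (gp_ne_of_im hv.1 hv.2.1)]
    exact image_mem_map hN
  -- a value with smaller real part
  have h2 := hopen w hw _ ((isOpen_DD h0 h1).mem_nhds hw)
  obtain ⟨ε, ⟨v, hv, hve⟩, hε⟩ := (((left (G s w)).eventually h2).and self_mem_nhdsWithin).exists
  have hε' : 0 < ε := hε
  have hvi : (G s v).im = s * Real.pi := by
    rw [hve, sub_im, ofReal_im, sub_zero, hi]
  have hvr : (G s v).re < cst s := by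
    rw [hve, sub_re, ofReal_re]
    linarith
  obtain ⟨x, hx1, hx2, hxe⟩ := slit_real h0 h1 hvr
  have hgx : gu s (x : ℂ) = G s v := by
    apply Complex.ext
    · exact hxe
    · rw [gu_real_lt hx2, hvi]
  have hne : v ≠ (x : ℂ) := by
    intro h
    have := hv.1
    rw [h] at this
    simp at this
  obtain ⟨N, N', hN, hN', hdis⟩ := t2_separation_nhds hne
  have k1 := hopen v hv _ (inter_mem (hN) ((isOpen_DD h0 h1).mem_nhds hv))
  have hev : ∀ᶠ z in 𝓝 (x : ℂ), z.im < 1 ∧ Real.sqrt s < z.re := by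
    filter_upwards [(continuous_im.tendsto (x : ℂ)).eventually (gt_mem_nhds (show (x : ℂ).im < 1 by simp)),
      (continuous_re.tendsto (x : ℂ)).eventually (lt_mem_nhds (show Real.sqrt s < (x : ℂ).re by simpa using hx1))] with z a b
    exact ⟨a, b⟩
  have hstr : HasStrictDerivAt (gu s) (gp s (x : ℂ)) (x : ℂ) :=
    hasStrictDerivAt_gu h0.le h1 (by simp) (by simp) (Or.inl (by simpa using hx2.ne))
  have hgpx : gp s (x : ℂ) ≠ 0 := by
    refine gp_ne ?_ ?_ (real_ne_I x) (real_ne_neg_I x)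
    · intro h
      exact hx1.ne' (ofReal_injective h)
    · intro h
      exact hx2.ne (ofReal_injective h)
  have k2 : gu s '' (N' ∩ {z | ((0 < z.im → (gu s z).im < s * Real.pi) ∧ (z.im ≤ 0 → s * Real.pi ≤ (gu s z).im)) ∧
      (z.im < 1 ∧ Real.sqrt s < z.re)}) ∈ 𝓝 (G s v) := by
    rw [← hgx, ← hstr.map_nhds_eq hgpx]
    exact image_mem_map (inter_mem hN' ((near_real h0 h1 hx2 hx1.ne').and hev))
  have k3 : ∀ᶠ z in 𝓝 (G s v), 0 < z.im := (continuous_im.tendsto _).eventually (lt_mem_nhds (by rw [hvi]; exact hsp))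
  obtain ⟨δ, ⟨⟨⟨y, hy, hye⟩, ⟨y', hy', hye'⟩⟩, hpos⟩, hδ⟩ :=
    (((((down (G s v)).eventually k1).and ((down (G s v)).eventually k2)).and ((down (G s v)).eventually k3)).and
      self_mem_nhdsWithin).exists
  have hδ' : 0 < δ := hδ
  have him : (G s v - δ * I).im < s * Real.pi := by
    have : (G s v - δ * I).im = (G s v).im - δ := by simp
    rw [this, hvi]
    linarith
  obtain ⟨y1, ⟨y2, y3⟩, y4, y5⟩ := hy'
  have hy0 : 0 < y'.im := by
    by_contra h
    have := y3 (not_lt.1 h)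
    rw [hye'] at this
    linarith
  have hyD : y' ∈ DD s := by
    refine ⟨hy0, fun h => ?_, fun h => ?_⟩
    · rw [h] at y4
      simp at y4
    · exact absurd h.2.2.1 (not_lt.2 y5.le)
  have hGy : G s y' = gu s y' := by
    rw [G_of_not (fun h => absurd h.2.1 (not_lt.2 y5.le)), gt_eq_gu s hy0 y4]
  have hT : G s v - δ * I ∈ TT s := ⟨hpos, lt_trans him hsp1, fun h => absurd h.1 him.ne⟩
  have : y = y' := by
    refine (bij1 h0 h1).injOn ⟨hy.2, ?_⟩ ⟨hyD, ?_⟩ ?_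
    · rw [Set.mem_preimage, hye]; exact hT
    · rw [Set.mem_preimage, hGy, hye']; exact hT
    · rw [hye, hGy, hye']
  exact (Set.disjoint_left.1 hdis) hy.1 (this ▸ y1)

theorem bij2 {s : ℝ} (h0 : 0 < s) (h1 : s < 1) : Set.BijOn (G s) (DD s) (TT s) := by
  have h := bij1 h0 h1
  have e : DD s ∩ G s ⁻¹' TT s = DD s := by
    ext w
    refine ⟨fun h => h.1, fun hw => ⟨hw, ?_⟩⟩
    have := G_im h0 h1 hw
    exact ⟨this.1, this.2, no_slit h0 h1 hw⟩
  rwa [e] at h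

theorem Ga_gt_open {s : ℝ} (h0 : 0 < s) (h1 : s < 1) {w : ℂ} (hw : w ∈ Ga s) {N : Set ℂ} (hN : N ∈ 𝓝 w) :
    gt s '' (N ∩ {z | 0 < z.im ∧ z.im < 1 ∧ z.re < Real.sqrt s}) ∈ 𝓝 (gt s w) := by
  have hd := hasStrictDerivAt_gt h0.le h1 hw.1 (Or.inl hw.2.1.ne)
  have hI : w ≠ I := by
    intro h
    have := hw.2.1
    rw [h] at this
    simp at this
  rw [← hd.map_nhds_eq (gp_ne_of_im hw.1 hI)]
  refine image_mem_map (inter_mem hN ?_)
  filter_upwards [(continuous_im.tendsto w).eventually (lt_mem_nhds hw.1), (continuous_im.tendsto w).eventually (gt_mem_nhds hw.2.1),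
    (continuous_re.tendsto w).eventually (gt_mem_nhds hw.2.2.1)] with z a b c
  exact ⟨a, b, c⟩

theorem Ga_inj {s : ℝ} (h0 : 0 < s) (h1 : s < 1) : Set.InjOn (G s) (Ga s) := by
  intro w hw w' hw' he
  by_contra hne
  have hgt : gt s w = gt s w' := by
    rw [G_of_mem (Ga_UU hw), G_of_mem (Ga_UU hw')] at he
    exact add_right_cancel he
  obtain ⟨N, N', hN, hN', hdis⟩ := t2_separation_nhds hne
  have k1 := Ga_gt_open h0 h1 hw hN
  have k2 := Ga_gt_open h0 h1 hw' hN'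
  rw [← hgt] at k2
  obtain ⟨δ, ⟨⟨y, hy, hye⟩, ⟨y', hy', hye'⟩⟩, hδ⟩ :=
    ((((down (gt s w)).eventually k1).and ((down (gt s w)).eventually k2)).and self_mem_nhdsWithin).exists
  have hδ' : 0 < δ := hδ
  have him : (gt s w - δ * I).im < s * Real.pi := by
    have : (gt s w - δ * I).im = (gt s w).im - δ := by simp
    rw [this, hw.2.2.2]
    linarith
  have aux : ∀ v : ℂ, 0 < v.im ∧ v.im < 1 ∧ v.re < Real.sqrt s → gt s v = gt s w - δ * I →
      v ∈ DD s ∧ G s v = gt s w - δ * I + ((1 - s) * Real.pi : ℂ) * I := by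
    intro v hv hve
    refine ⟨⟨hv.1, fun h => ?_, fun h => ?_⟩, ?_⟩
    · have := hv.2.1
      rw [h] at this
      simp at this
    · have := h.2.2.2
      rw [hve] at this
      linarith
    · rw [G_of_mem ⟨hv.2.1, hv.2.2, by rw [hve]; exact him.le⟩, hve]
  obtain ⟨a1, a2⟩ := aux y hy.2 hye
  obtain ⟨b1, b2⟩ := aux y' hy'.2 hye'
  have : y = y' := (bij2 h0 h1).injOn a1 b1 (by rw [a2, b2])
  exact (Set.disjoint_left.1 hdis) hy.1 (this ▸ hy'.1)

theorem bij_Ga {s : ℝ} (h0 : 0 < s) (h1 : s < 1) : Set.BijOn (G s) (Ga s) {z | z.im = Real.pi ∧ z.re < cst s} := by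
  refine ⟨fun w hw => G_Ga h0 h1 hw, Ga_inj h0 h1, ?_⟩
  rintro ζ ⟨hi, hr⟩
  have hpi := Real.pi_pos
  have hsp1 : s * Real.pi < Real.pi := by nlinarith
  have hlim : Tendsto (fun k : ℕ => ζ - (((1 - s) * Real.pi * (1 / ((k : ℝ) + 2)) : ℝ) : ℂ) * I) atTop (𝓝 ζ) := by
    have h3 : Tendsto (fun k : ℕ => (1 - s) * Real.pi * (1 / ((k : ℝ) + 2))) atTop (𝓝 ((1 - s) * Real.pi * 0)) := by
      refine Tendsto.const_mul _ ?_
      exact tendsto_const_nhds.div_atTop (tendsto_atTop_add_const_right _ _ tendsto_natCast_atTop_atTop)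
    rw [mul_zero] at h3
    have h4 : Tendsto (fun k : ℕ => ζ - (((1 - s) * Real.pi * (1 / ((k : ℝ) + 2)) : ℝ) : ℂ) * I) atTop
        (𝓝 (ζ - ((0 : ℝ) : ℂ) * I)) :=
      tendsto_const_nhds.sub (((continuous_ofReal.tendsto 0).comp h3).mul_const I)
    simpa using h4
  have hT : ∀ k : ℕ, ζ - (((1 - s) * Real.pi * (1 / ((k : ℝ) + 2)) : ℝ) : ℂ) * I ∈ TT s := by
    intro k
    have e : (ζ - (((1 - s) * Real.pi * (1 / ((k : ℝ) + 2)) : ℝ) : ℂ) * I).im = Real.pi - (1 - s) * Real.pi * (1 / ((k : ℝ) + 2)) := by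
      rw [sub_im, im_ofReal_mul, I_im, mul_one, hi]
    have k0 : (0 : ℝ) ≤ (k : ℝ) := Nat.cast_nonneg k
    have k1 : 0 < 1 / ((k : ℝ) + 2) := by positivity
    have k2 : 1 / ((k : ℝ) + 2) < 1 := by
      rw [div_lt_one (by positivity)]
      linarith
    have k3 : 0 < (1 - s) * Real.pi := mul_pos (by linarith) hpi
    have k4 : 0 < (1 - s) * Real.pi * (1 / ((k : ℝ) + 2)) := mul_pos k3 k1
    have k5 : (1 - s) * Real.pi * (1 / ((k : ℝ) + 2)) < (1 - s) * Real.pi := by nlinarith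
    refine ⟨?_, ?_, ?_⟩
    · rw [e]
      nlinarith
    · rw [e]
      linarith
    · rintro ⟨h, -⟩
      rw [e] at h
      nlinarith
  choose u hu hue using fun k => (bij2 h0 h1).surjOn (hT k)
  have hlim1 : Tendsto (fun k => G s (u k)) atTop (𝓝 ζ) := hlim.congr fun k => (hue k).symm
  obtain ⟨w, φ, hφ, hl⟩ := subseq h0 h1 hlim1
  have hlim2 : Tendsto (fun k => G s (u (φ k))) atTop (𝓝 ζ) := hlim1.comp hφ.tendsto_atTop
  rcases limit_cases h0 h1 (fun k => ⟨(hu (φ k)).1, (hu (φ k)).2.1⟩) hl hlim2 with h | h | h | h | h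
  · exfalso
    have := (G_im h0 h1 h.1).2
    rw [h.2, hi] at this
    exact lt_irrefl _ this
  · rcases h.2 with k | k
    · exact ⟨w, h.1, k⟩
    · exfalso
      have := h.1.2.2.2
      rw [k, hi] at this
      linarith
  · exfalso
    rw [hi] at h
    linarith
  · exfalso
    rw [hi] at h
    linarith [h.1]
  · exfalso
    linarith [h.2]

end SM
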