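import Pool.Agent.Lib.MP_216314_pr.SM.E

/-!
# Limits of the map
-/

set_option autoImplicit false

noncomputable section

namespace SM

open Complex Topology Filter Bornology

theorem log_cob (c : ℂ) : Tendsto (fun w : ℂ => Real.log ‖w - c‖) (cobounded ℂ) atTop :=
  Real.tendsto_log_atTop.comp (tendsto_norm_cobounded_atTop.comp (tendsto_sub_const_cobounded c))

theorem gt_re' (s : ℝ) (w : ℂ) : (gt s w).re = s * Real.log ‖w - (w1 s : ℂ)‖ +
    (1 - s) / 2 * (Real.log ‖w - I‖ + Real.log ‖w - (-I)‖) := by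
  rw [gt_re, sub_neg_eq_add]

theorem gt_re_cob {s : ℝ} (h0 : 0 < s) (h1 : s < 1) : Tendsto (fun w => (gt s w).re) (cobounded ℂ) atTop := by
  simp_rw [gt_re']
  exact ((log_cob _).const_mul_atTop h0).atTop_add_atTop
    (((log_cob _).atTop_add_atTop (log_cob _)).const_mul_atTop (by linarith))

theorem log_zero (c : ℂ) : Tendsto (fun w : ℂ => Real.log ‖w - c‖) (𝓝[≠] c) atBot := by
  refine Real.tendsto_log_nhdsNE_zero.comp ?_
  refine tendsto_nhdsWithin_iff.2 ⟨?_, ?_⟩
  · have h : Tendsto (fun w : ℂ => ‖w - c‖) (𝓝 c) (𝓝 ‖c - c‖) :=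
      (continuous_norm.comp (continuous_id.sub continuous_const)).tendsto c
    rw [sub_self, norm_zero] at h
    exact h.mono_left nhdsWithin_le_nhds
  · filter_upwards [self_mem_nhdsWithin] with w hw
    exact norm_ne_zero_iff.2 (sub_ne_zero.2 hw)

theorem log_fin {c d : ℂ} (h : c ≠ d) : Tendsto (fun w : ℂ => Real.log ‖w - d‖) (𝓝[≠] c) (𝓝 (Real.log ‖c - d‖)) := by
  have h1 : Tendsto (fun w : ℂ => ‖w - d‖) (𝓝 c) (𝓝 ‖c - d‖) :=
    (continuous_norm.comp (continuous_id.sub continuous_const)).tendsto c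
  exact (h1.log (norm_ne_zero_iff.2 (sub_ne_zero.2 h))).mono_left nhdsWithin_le_nhds

theorem w1_ne_I (s : ℝ) : (w1 s : ℂ) ≠ I := by
  intro h
  have := congrArg Complex.im h
  simp at this

theorem w1_ne_neg_I (s : ℝ) : (w1 s : ℂ) ≠ -I := by
  intro h
  have := congrArg Complex.im h
  simp at this

theorem I_ne_neg_I : (I : ℂ) ≠ -I := by
  intro h
  have := congrArg Complex.im h
  simp at this
  linarith

theorem gt_re_w1 {s : ℝ} (h0 : 0 < s) : Tendsto (fun w => (gt s w).re) (𝓝[≠] (w1 s : ℂ)) atBot := by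
  simp_rw [gt_re']
  exact ((log_zero _).const_mul_atBot h0).atBot_add
    (((log_fin (w1_ne_I s)).add (log_fin (w1_ne_neg_I s))).const_mul _)

theorem gt_re_I {s : ℝ} (h1 : s < 1) : Tendsto (fun w => (gt s w).re) (𝓝[≠] I) atBot := by
  simp_rw [gt_re']
  exact ((log_fin (w1_ne_I s).symm).const_mul s).add_atBot
    (((log_zero I).atBot_add (log_fin I_ne_neg_I)).const_mul_atBot (by linarith))

/-! ### the real line -/

theorem gu_real_gt {s x : ℝ} (hx : w1 s < x) : (gu s x).im = 0 := by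
  have e1 : -I * ((x : ℂ) - (w1 s : ℂ)) = ((x - w1 s : ℝ) : ℂ) * -I := by
    push_cast
    ring
  have e2 : (x : ℂ) ^ 2 + 1 = ((x ^ 2 + 1 : ℝ) : ℂ) := by
    push_cast
    ring
  rw [gu, e1, e2, log_ofReal_mul (by linarith) (neg_ne_zero.2 I_ne_zero), log_neg_I, ← ofReal_log (by positivity), half_cast,
    add_im, im_ofReal_mul, im_ofReal_mul, ofReal_im, add_im, add_im, ofReal_im]
  simp

theorem gu_real_lt {s x : ℝ} (hx : x < w1 s) : (gu s x).im = s * Real.pi := by
  have e1 : -I * ((x : ℂ) - (w1 s : ℂ)) = ((w1 s - x : ℝ) : ℂ) * I := by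
    push_cast
    ring
  have e2 : (x : ℂ) ^ 2 + 1 = ((x ^ 2 + 1 : ℝ) : ℂ) := by
    push_cast
    ring
  rw [gu, e1, e2, log_ofReal_mul (by linarith) I_ne_zero, log_I, ← ofReal_log (by positivity), half_cast,
    add_im, im_ofReal_mul, im_ofReal_mul, ofReal_im, add_im, add_im, ofReal_im]
  simp

theorem gp_real (s x : ℝ) : (gp s x).re = (x - Real.sqrt s) ^ 2 / ((x - w1 s) * (x ^ 2 + 1)) := by
  have : gp s x = (((x - Real.sqrt s) ^ 2 / ((x - w1 s) * (x ^ 2 + 1)) : ℝ) : ℂ) := by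
    rw [gp]
    push_cast
    rfl
  rw [this, ofReal_re]

theorem gu_real_deriv {s x : ℝ} (h0 : 0 < s) (h1 : s < 1) (hx : x ≠ w1 s) :
    HasDerivAt (fun x : ℝ => (gu s x).re) (gp s x).re x := by
  have h := re_deriv (seg_deriv (a := 0) (z := 1) (t := x) (f := gu s) (f' := gp s x) (by
    rw [zero_add, mul_one]
    exact (hasStrictDerivAt_gu h0.le h1 (by simp) (by simp) (Or.inl (by simpa using hx))).hasDerivAt))
  simpa using h

theorem gu_real_anti {s : ℝ} (h0 : 0 < s) (h1 : s < 1) : AntitoneOn (fun x : ℝ => (gu s x).re) (Set.Iio (w1 s)) := by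
  refine antitoneOn_of_deriv_nonpos (convex_Iio _) ?_ ?_ ?_
  · intro x hx
    exact (gu_real_deriv h0 h1 (ne_of_lt hx)).continuousAt.continuousWithinAt
  · intro x hx
    rw [interior_Iio] at hx
    exact (gu_real_deriv h0 h1 (ne_of_lt hx)).differentiableAt.differentiableWithinAt
  · intro x hx
    rw [interior_Iio] at hx
    rw [(gu_real_deriv h0 h1 (ne_of_lt hx)).deriv, gp_real]
    refine div_nonpos_of_nonneg_of_nonpos (sq_nonneg _) ?_
    have : x < w1 s := hx
    have h3 : 0 < x ^ 2 + 1 := by positivity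
    nlinarith

theorem gu_tip_re {s : ℝ} (h0 : 0 < s) (h1 : s < 1) : (gu s (Real.sqrt s : ℂ)).re = cst s := by
  rw [gu_tip h0 h1]
  simp

theorem gu_right {s x : ℝ} (h0 : 0 < s) (h1 : s < 1) (h : Real.sqrt s ≤ x) (hx : x < w1 s) : (gu s x).re ≤ cst s := by
  rw [← gu_tip_re h0 h1]
  exact gu_real_anti h0 h1 (w1_gt h0 h1) hx h

theorem gu_left {s x : ℝ} (h0 : 0 < s) (h1 : s < 1) (h : x ≤ Real.sqrt s) : cst s ≤ (gu s x).re := by
  rw [← gu_tip_re h0 h1]
  exact gu_real_anti h0 h1 (lt_of_le_of_lt h (w1_gt h0 h1)) (w1_gt h0 h1) h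

/-- near a real point -/
theorem near_real {s x : ℝ} (h0 : 0 < s) (h1 : s < 1) (hx : x < w1 s) (hx2 : x ≠ Real.sqrt s) :
    ∀ᶠ w in 𝓝 (x : ℂ), (0 < w.im → (gu s w).im < s * Real.pi) ∧ (w.im ≤ 0 → s * Real.pi ≤ (gu s w).im) := by
  have hc : ContinuousAt (fun w => (gp s w).re) (x : ℂ) := by
    have hne : ((x : ℂ) - (w1 s : ℂ)) * ((x : ℂ) ^ 2 + 1) ≠ 0 := by
      have : (((x : ℂ) - (w1 s : ℂ)) * ((x : ℂ) ^ 2 + 1)) = (((x - w1 s) * (x ^ 2 + 1) : ℝ) : ℂ) := by push_cast; ring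
      rw [this]
      have h3 : 0 < x ^ 2 + 1 := by positivity
      exact ofReal_ne_zero.2 (mul_ne_zero (by linarith) h3.ne')
    refine continuous_re.continuousAt.comp ?_
    unfold gp
    refine ContinuousAt.div ?_ ?_ hne
    · fun_prop
    · fun_prop
  have hneg : (gp s x).re < 0 := by
    rw [gp_real]
    refine div_neg_of_pos_of_neg ?_ ?_
    · have : x - Real.sqrt s ≠ 0 := sub_ne_zero.2 hx2
      positivity
    · have h3 : 0 < x ^ 2 + 1 := by positivity
      exact mul_neg_of_neg_of_pos (by linarith) h3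
  have hev : ∀ᶠ w in 𝓝 (x : ℂ), (gp s w).re < 0 ∧ -1 < w.im ∧ w.im < 1 ∧ w.re < w1 s := by
    filter_upwards [hc.eventually (gt_mem_nhds hneg), (continuous_im.tendsto (x : ℂ)).eventually (lt_mem_nhds (show -1 < (x : ℂ).im by simp)),
      (continuous_im.tendsto (x : ℂ)).eventually (gt_mem_nhds (show (x : ℂ).im < 1 by simp)),
      (continuous_re.tendsto (x : ℂ)).eventually (gt_mem_nhds (show (x : ℂ).re < w1 s by simpa using hx))] with w a b c d
    exact ⟨a, b, c, d⟩
  obtain ⟨r, hr, hball⟩ := Metric.eventually_nhds_iff_ball.1 hev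
  filter_upwards [Metric.ball_mem_nhds (x : ℂ) hr] with w hw
  have hin : ∀ t : ℝ, |t| ≤ |w.im| → (w.re : ℂ) + t * I ∈ Metric.ball (x : ℂ) r := by
    intro t ht
    rw [Metric.mem_ball, dist_eq] at hw ⊢
    refine lt_of_le_of_lt ?_ hw
    have e1 : (w.re : ℂ) + t * I - x = ((w.re - x : ℝ) : ℂ) + (t : ℝ) * I := by push_cast; ring
    have e2 : w - x = ((w.re - x : ℝ) : ℂ) + (w.im : ℝ) * I := by
      apply Complex.ext <;> simp
    rw [e1, e2, norm_add_mul_I, norm_add_mul_I]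
    exact Real.sqrt_le_sqrt (by nlinarith [sq_le_sq.2 ht])
  have hd : ∀ t : ℝ, |t| ≤ |w.im| → HasDerivAt (fun t : ℝ => (gu s ((w.re : ℂ) + t * I)).im)
      ((gp s ((w.re : ℂ) + t * I)) * I).im t := by
    intro t ht
    obtain ⟨-, b1, b2, b3⟩ := hball _ (hin t ht)
    exact im_deriv (seg_deriv (hasStrictDerivAt_gu h0.le h1 b1 b2 (Or.inl b3.ne)).hasDerivAt)
  have hp : ∀ t : ℝ, |t| ≤ |w.im| → ((gp s ((w.re : ℂ) + t * I)) * I).im < 0 := by
    intro t ht
    have := (hball _ (hin t ht)).1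
    simpa using this
  have hwx : w.re < w1 s := (hball _ hw).2.2.2
  have e0 : (gu s ((w.re : ℂ) + (0 : ℝ) * I)).im = s * Real.pi := by
    rw [ofReal_zero, zero_mul, add_zero, gu_real_lt hwx]
  have e1 : (gu s ((w.re : ℂ) + (w.im : ℝ) * I)) = gu s w := by rw [re_add_im]
  constructor
  · intro hi
    have hm : StrictAntiOn (fun t : ℝ => (gu s ((w.re : ℂ) + t * I)).im) (Set.Icc 0 w.im) := by
      refine strictAntiOn_of_deriv_neg (convex_Icc _ _) ?_ ?_
      · intro t ht
        exact (hd t (by rw [abs_of_nonneg ht.1, abs_of_pos hi]; exact ht.2)).continuousAt.continuousWithinAt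
      · intro t ht
        rw [interior_Icc] at ht
        have h3 : |t| ≤ |w.im| := by rw [abs_of_pos ht.1, abs_of_pos hi]; exact ht.2.le
        rw [(hd t h3).deriv]
        exact hp t h3
    have := hm (Set.left_mem_Icc.2 hi.le) (Set.right_mem_Icc.2 hi.le) hi
    simp only at this
    rw [e0, e1] at this
    exact this
  · intro hi
    have hm : AntitoneOn (fun t : ℝ => (gu s ((w.re : ℂ) + t * I)).im) (Set.Icc w.im 0) := by
      refine antitoneOn_of_deriv_nonpos (convex_Icc _ _) ?_ ?_ ?_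
      · intro t ht
        exact (hd t (by rw [abs_of_nonpos ht.2, abs_of_nonpos hi]; linarith [ht.1])).continuousAt.continuousWithinAt
      · intro t ht
        rw [interior_Icc] at ht
        exact (hd t (by rw [abs_of_nonpos ht.2.le, abs_of_nonpos hi]; linarith [ht.1])).differentiableAt.differentiableWithinAt
      · intro t ht
        rw [interior_Icc] at ht
        have h3 : |t| ≤ |w.im| := by rw [abs_of_nonpos ht.2.le, abs_of_nonpos hi]; linarith [ht.1]
        rw [(hd t h3).deriv]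
        exact (hp t h3).le
    have := hm (Set.left_mem_Icc.2 hi) (Set.right_mem_Icc.2 hi) hi
    simp only at this
    rw [e0, e1] at this
    exact this

end SM
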