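import Pool.Agent.Lib.MP_216314_pr.SM.O

/-!
# The ends of the surface
-/

set_option autoImplicit false

noncomputable section

namespace SM

open Complex Topology Filter Bornology

theorem arg_upper {z : ℂ} (him : 0 < z.im) : z.im / ‖z‖ ≤ Real.pi - arg z := by
  have h := arg_pos_lt him
  rw [← sin_arg, ← Real.sin_pi_sub]
  exact Real.sin_le (by linarith)

theorem arg_tan {z : ℂ} (hre : 0 < z.re) (him : 0 < z.im) : arg z < z.im / z.re := by
  rw [← tan_arg]
  exact Real.lt_tan (arg_pos_lt him).1 (abs_lt.1 (abs_arg_lt_pi_div_two_iff.2 (Or.inl hre))).2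

theorem near_w1 {s : ℝ} (h0 : 0 < s) (h1 : s < 1) :
    ∀ᶠ w in 𝓝 (w1 s : ℂ), 0 < w.im → (G s w).im < s * Real.pi := by
  have hk := w1_gt h0 h1
  have hs := Real.sqrt_pos.2 h0
  have hw1 : 0 < w1 s := lt_trans hs hk
  have h1s : 0 < 1 - s := by linarith
  have hδ : 0 < s / ((1 - s) * (w1 s + 1)) := by positivity
  have c2 : Continuous (fun w : ℂ => w.re ^ 2 - w.im ^ 2) := by fun_prop
  filter_upwards [(continuous_im.tendsto (w1 s : ℂ)).eventually (gt_mem_nhds (show (w1 s : ℂ).im < 1 by simp)),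
    (continuous_re.tendsto (w1 s : ℂ)).eventually (lt_mem_nhds (show Real.sqrt s < (w1 s : ℂ).re by simpa using hk)),
    (continuous_re.tendsto (w1 s : ℂ)).eventually (gt_mem_nhds (show (w1 s : ℂ).re < w1 s + 1 by simp)),
    (c2.tendsto (w1 s : ℂ)).eventually (lt_mem_nhds (show 0 < (w1 s : ℂ).re ^ 2 - (w1 s : ℂ).im ^ 2 by
      rw [ofReal_re, ofReal_im]; nlinarith)),
    Metric.ball_mem_nhds (w1 s : ℂ) hδ] with w a1 a2 a3 a4 a5 him
  rw [G_of_not (fun h => absurd h.2.1 (not_lt.2 (le_of_lt a2))), gt_im, sum_arg him a1]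
  rw [Metric.mem_ball, dist_eq] at a5
  have hx : 0 < w.re := lt_trans hs a2
  have i1 : (w - (w1 s : ℂ)).im = w.im := by simp
  have b1 := arg_upper (z := w - (w1 s : ℂ)) (by rw [i1]; exact him)
  rw [i1] at b1
  have b2 := arg_tan (z := w ^ 2 + 1) (sq_re_pos (by linarith) a1) (by rw [sq_im]; positivity)
  rw [sq_re, sq_im] at b2
  have b3 : 2 * w.re * w.im / (1 + w.re ^ 2 - w.im ^ 2) ≤ 2 * w.re * w.im := by
    refine div_le_self (by positivity) (by linarith)
  have hn : 0 < ‖w - (w1 s : ℂ)‖ := by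
    refine norm_pos_iff.2 ?_
    intro h
    rw [h] at i1
    simp at i1
    linarith
  have b4 : (1 - s) * w.re * ‖w - (w1 s : ℂ)‖ < s := by
    have h3 : ‖w - (w1 s : ℂ)‖ * ((1 - s) * (w1 s + 1)) < s := by
      rwa [lt_div_iff₀ (by positivity)] at a5
    have h4 : (1 - s) * w.re ≤ (1 - s) * (w1 s + 1) := mul_le_mul_of_nonneg_left a3.le h1s.le
    have h5 := mul_le_mul_of_nonneg_right h4 hn.le
    linarith
  have b5 : (1 - s) * w.re * w.im < s * (w.im / ‖w - (w1 s : ℂ)‖) := by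
    rw [← mul_div_assoc, lt_div_iff₀ hn]
    nlinarith
  nlinarith

theorem norm_I_w1 {s : ℝ} (h0 : 0 < s) (h1 : s < 1) : ‖I - (w1 s : ℂ)‖ = (1 + s) / (1 - s) := by
  have h1s : 0 < 1 - s := by linarith
  have e : I - (w1 s : ℂ) = ((-(w1 s) : ℝ) : ℂ) + ((1 : ℝ) : ℂ) * I := by push_cast; ring
  rw [e, norm_add_mul_I, Real.sqrt_eq_iff_mul_self_eq (by positivity) (by positivity)]
  have h3 : w1 s ^ 2 = 4 * s / (1 - s) ^ 2 := by
    rw [w1, div_pow, mul_pow, Real.sq_sqrt h0.le]
    norm_num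
  have h4 : (-(w1 s)) ^ 2 = w1 s ^ 2 := by ring
  rw [h4, h3]
  field_simp
  ring

theorem near_I {s : ℝ} (h0 : 0 < s) (h1 : s < 1) : ∀ᶠ w in 𝓝 I, w ≠ I → s * Real.pi < (G s w).im := by
  have hpi := Real.pi_pos
  have hk := w1_gt h0 h1
  have hs := Real.sqrt_pos.2 h0
  have hw1 : 0 < w1 s := lt_trans hs hk
  have h1s : 0 < 1 - s := by linarith
  have c1 : ContinuousAt (fun w : ℂ => s * arg (w - (w1 s : ℂ)) + (1 - s) / 2 * arg (w + I)) I := by
    have k1 : ContinuousAt (fun w : ℂ => arg (w - (w1 s : ℂ))) I :=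
      ContinuousAt.comp (f := fun w : ℂ => w - (w1 s : ℂ)) (continuousAt_arg (Or.inr (by simp)))
        (continuous_id.sub continuous_const).continuousAt
    have k2 : ContinuousAt (fun w : ℂ => arg (w + I)) I :=
      ContinuousAt.comp (f := fun w : ℂ => w + I) (continuousAt_arg (Or.inr (by simp)))
        (continuous_id.add continuous_const).continuousAt
    exact (k1.const_mul s).add (k2.const_mul _)
  have c2 : s * Real.pi < s * arg (I - (w1 s : ℂ)) + (1 - s) / 2 * arg (I + I) := by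
    have e1 : arg (I + I) = Real.pi / 2 := by
      have : I + I = ((2 : ℝ) : ℂ) * I := by push_cast; ring
      rw [this, arg_real_mul _ (by norm_num), arg_I]
    have e2 := arg_lower (z := I - (w1 s : ℂ)) (by simp; linarith) (by simp)
    rw [norm_I_w1 h0 h1] at e2
    have e3 : (I - (w1 s : ℂ)).im = 1 := by simp
    rw [e3] at e2
    have e4 : 1 / ((1 + s) / (1 - s)) = (1 - s) / (1 + s) := by
      field_simp
    rw [e4] at e2
    rw [e1]
    have e5 : s * ((1 - s) / (1 + s)) < (1 - s) / 2 := by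
      rw [← mul_div_assoc, div_lt_div_iff₀ (by linarith) (by norm_num)]
      nlinarith
    have e6 := mul_le_mul_of_nonneg_left e2 h0.le
    nlinarith
  filter_upwards [c1.eventually (lt_mem_nhds c2), (continuous_re.tendsto I).eventually
    (gt_mem_nhds (show I.re < Real.sqrt s by simpa using hs)),
    (continuous_im.tendsto I).eventually (lt_mem_nhds (show 0 < I.im by simp))] with w a1 a2 a3 hne
  by_cases h : w.im < 1
  · by_cases hU : w ∈ UU s
    · rw [G_of_mem hU]
      have e : (gt s w + ((1 - s) * Real.pi : ℂ) * I).im = (gt s w).im + (1 - s) * Real.pi := by simp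
      rw [e, gt_im]
      have := neg_pi_lt_arg (w - I)
      nlinarith
    · rw [G_of_not hU]
      by_contra h3
      exact hU ⟨h, a2, not_lt.1 h3⟩
  · push Not at h
    rw [G_of_not (fun h2 => absurd h2.1 (not_lt.2 h)), gt_im]
    have : 0 ≤ arg (w - I) := arg_nonneg_iff.2 (by simpa using h)
    nlinarith

theorem ends {s : ℝ} (h0 : 0 < s) (h1 : s < 1) {ε : ℝ} (hε : 0 < ε) :
    ∃ M : ℝ, ∀ w : ℂ, 0 < w.im → w ≠ I →
      ((G s w).re < -M → (‖w - (w1 s : ℂ)‖ < ε ∧ (G s w).im < s * Real.pi) ∨ (‖w - I‖ < ε ∧ s * Real.pi < (G s w).im)) ∧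
      (M < (G s w).re → 1 / ε < ‖w‖) := by
  obtain ⟨δ1, hδ1, hb1⟩ := Metric.eventually_nhds_iff_ball.1 (near_w1 h0 h1)
  obtain ⟨δ2, hδ2, hb2⟩ := Metric.eventually_nhds_iff_ball.1 (near_I h0 h1)
  set δ : ℝ := min (min δ1 δ2) (min ε (1 / 2)) with hδ
  have d0 : 0 < δ := by
    rw [hδ]
    exact lt_min (lt_min hδ1 hδ2) (lt_min hε (by norm_num))
  have d1 : δ ≤ δ1 := le_trans (min_le_left _ _) (min_le_left _ _)
  have d2 : δ ≤ δ2 := le_trans (min_le_left _ _) (min_le_right _ _)
  have d3 : δ ≤ ε := le_trans (min_le_right _ _) (min_le_left _ _)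
  have d4 : δ ≤ 1 / 2 := le_trans (min_le_right _ _) (min_le_right _ _)
  have hl : Real.log δ ≤ 0 := Real.log_nonpos d0.le (by linarith)
  refine ⟨max (-Real.log δ) (1 / ε + w1 s + 1), fun w hw hwI => ⟨fun h => ?_, fun h => ?_⟩⟩
  · rw [G_re] at h
    have h2 : (gt s w).re < Real.log δ := by
      have := le_max_left (-Real.log δ) (1 / ε + w1 s + 1)
      linarith
    by_cases k1 : ‖w - (w1 s : ℂ)‖ < δ
    · left
      exact ⟨lt_of_lt_of_le k1 d3, hb1 w (by rw [Metric.mem_ball, dist_eq]; linarith) hw⟩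
    · by_cases k2 : ‖w - I‖ < δ
      · right
        exact ⟨lt_of_lt_of_le k2 d3, hb2 w (by rw [Metric.mem_ball, dist_eq]; linarith) hwI⟩
      · exfalso
        push Not at k1 k2
        rw [gt_re] at h2
        have l1 := Real.log_le_log d0 k1
        have l2 := Real.log_le_log d0 k2
        have l3 : 0 ≤ Real.log ‖w + I‖ := by
          refine Real.log_nonneg ?_
          have := abs_im_le_norm (w + I)
          have e : (w + I).im = w.im + 1 := by simp
          rw [e, abs_of_pos (by linarith)] at this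
          linarith
        nlinarith
  · rw [G_re] at h
    have h3 := gt_re_le h0 h1 w
    have h4 := le_max_right (-Real.log δ) (1 / ε + w1 s + 1)
    linarith

/-- the map near the glued curve -/
theorem near_Ga {s : ℝ} (h0 : 0 < s) (h1 : s < 1) {w : ℂ} (hw : w ∈ Ga s) :
    ∀ᶠ z in 𝓝 w, HasStrictDerivAt (fun z => gt s z + ((1 - s) * Real.pi : ℂ) * I) (gp s z) z ∧
      G s z = if (gt s z + ((1 - s) * Real.pi : ℂ) * I).im ≤ Real.pi then gt s z + ((1 - s) * Real.pi : ℂ) * I else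
        gt s z + ((1 - s) * Real.pi : ℂ) * I - ((1 - s) * Real.pi : ℂ) * I := by
  filter_upwards [(continuous_im.tendsto w).eventually (lt_mem_nhds hw.1), (continuous_im.tendsto w).eventually (gt_mem_nhds hw.2.1),
    (continuous_re.tendsto w).eventually (gt_mem_nhds hw.2.2.1)] with z a b c
  refine ⟨(hasStrictDerivAt_gt h0.le h1 a (Or.inl b.ne)).add_const _, ?_⟩
  have e : (gt s z + ((1 - s) * Real.pi : ℂ) * I).im = (gt s z).im + (1 - s) * Real.pi := by simp
  rw [e]
  split_ifs with h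
  · exact G_of_mem ⟨b, c, by linarith⟩
  · rw [G_of_not (fun h2 => h (by linarith [h2.2.2]))]
    ring

/-- the left side of the strip -/
theorem near_right {s : ℝ} (h0 : 0 < s) (h1 : s < 1) {x : ℝ} (hx : w1 s < x) :
    Tendsto (fun w => (G s w).im) (𝓝[{w | 0 < w.im}] (x : ℂ)) (𝓝 0) := by
  have hd := (hasStrictDerivAt_gu h0.le h1 (w := (x : ℂ)) (by simp) (by simp) (Or.inl (by simpa using hx.ne'))).hasDerivAt.continuousAt
  have h2 : Tendsto (fun w => (gu s w).im) (𝓝[{w | 0 < w.im}] (x : ℂ)) (𝓝 0) := by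
    have := (continuous_im.continuousAt.comp hd).tendsto
    simp only [Function.comp] at this
    rw [gu_real_gt hx] at this
    exact this.mono_left nhdsWithin_le_nhds
  refine h2.congr' ?_
  filter_upwards [self_mem_nhdsWithin, nhdsWithin_le_nhds ((continuous_im.tendsto (x : ℂ)).eventually
    (gt_mem_nhds (show (x : ℂ).im < 1 by simp))), nhdsWithin_le_nhds ((continuous_re.tendsto (x : ℂ)).eventually
    (lt_mem_nhds (show Real.sqrt s < (x : ℂ).re by simpa using lt_trans (w1_gt h0 h1) hx)))] with w a b c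
  have hw0 : 0 < w.im := a
  rw [G_of_not (fun h => absurd h.2.1 (not_lt.2 (le_of_lt c))), gt_eq_gu s hw0 b]

end SM
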